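import Mathlib

/-!
A zero-one law for closed walks: letters `s : S` with values `α s` in an abelian group and
`β s` in a torsion-free abelian group, and an involution changing both signs.
If some closed word for `α` is not closed for `β`, then asymptotically almost no word that is
closed for `α` is closed for `β`.
-/

namespace Pool.Agent.Helper32.ZeroOne

open Finset

set_option linter.unusedSectionVars false

variable {S : Type*} [Fintype S] [DecidableEq S]
variable {A : Type*} [CommGroup A] {E : Type*} [AddCommGroup E]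

open Classical in
/-- words closed for `α` -/
noncomputable def allS (α : S → A) (I : Type*) [Fintype I] [DecidableEq I] : Finset (I → S) :=
  univ.filter (fun t => ∏ i, α (t i) = 1)

open Classical in
/-- words closed for `α` with `β`-sum `x` -/
noncomputable def cls (α : S → A) (β : S → E) (I : Type*) [Fintype I] [DecidableEq I] (x : E) :
    Finset (I → S) :=
  univ.filter (fun t => ∏ i, α (t i) = 1 ∧ ∑ i, β (t i) = x)

lemma mem_allS {α : S → A} {I : Type*} [Fintype I] [DecidableEq I] {t : I → S} :
    t ∈ allS α I ↔ ∏ i, α (t i) = 1 := by simp [allS]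

lemma mem_cls {α : S → A} {β : S → E} {I : Type*} [Fintype I] [DecidableEq I] {x : E}
    {t : I → S} : t ∈ cls α β I x ↔ ∏ i, α (t i) = 1 ∧ ∑ i, β (t i) = x := by simp [cls]

lemma cls_subset {α : S → A} {β : S → E} {I : Type*} [Fintype I] [DecidableEq I] {x : E} :
    cls α β I x ⊆ allS α I := by
  intro t ht
  rw [mem_cls] at ht
  rw [mem_allS]
  exact ht.1

/-! ### Reindexing -/

lemma card_allS_congr (α : S → A) {I J : Type*} [Fintype I] [DecidableEq I] [Fintype J]
    [DecidableEq J] (e : I ≃ J) : (allS α I).card = (allS α J).card := by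
  apply Finset.card_bij (fun t _ => t ∘ e.symm)
  · intro t ht
    rw [mem_allS] at *
    rw [← ht]
    exact Fintype.prod_equiv e.symm _ _ (fun _ => rfl)
  · intro t _ t' _ h
    funext i
    have := congrFun h (e i)
    simpa using this
  · intro t ht
    refine ⟨t ∘ e, ?_, ?_⟩
    · rw [mem_allS] at *
      rw [← ht]
      exact Fintype.prod_equiv e _ _ (fun _ => rfl)
    · funext j
      simp

lemma card_cls_congr (α : S → A) (β : S → E) {I J : Type*} [Fintype I] [DecidableEq I] [Fintype J]
    [DecidableEq J] (e : I ≃ J) (x : E) : (cls α β I x).card = (cls α β J x).card := by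
  apply Finset.card_bij (fun t _ => t ∘ e.symm)
  · intro t ht
    rw [mem_cls] at *
    refine ⟨?_, ?_⟩
    · rw [← ht.1]
      exact Fintype.prod_equiv e.symm _ _ (fun _ => rfl)
    · rw [← ht.2]
      exact Fintype.sum_equiv e.symm _ _ (fun _ => rfl)
  · intro t _ t' _ h
    funext i
    have := congrFun h (e i)
    simpa using this
  · intro t ht
    refine ⟨t ∘ e, ?_, ?_⟩
    · rw [mem_cls] at *
      refine ⟨?_, ?_⟩
      · rw [← ht.1]
        exact Fintype.prod_equiv e _ _ (fun _ => rfl)
      · rw [← ht.2]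
        exact Fintype.sum_equiv e _ _ (fun _ => rfl)
    · funext j
      simp

/-! ### Replacing letters -/

section replace

variable {I : Type*} [Fintype I] [DecidableEq I] {m : ℕ}

lemma prod_extend {M : Type*} [CommGroup M] (f : S → M) (ι : Fin m ↪ I) (w : Fin m → S)
    (t : I → S) :
    (∏ x, f (Function.extend ι w t x)) * ∏ j, f (t (ι j)) = (∏ x, f (t x)) * ∏ j, f (w j) := by
  classical
  have h1 : ∏ x, f (Function.extend ι w t x) =
      (∏ j, f (w j)) * ∏ x ∈ (univ.map ι)ᶜ, f (t x) := by
    rw [← Finset.prod_mul_prod_compl (univ.map ι), Finset.prod_map]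
    congr 1
    · apply Finset.prod_congr rfl
      intro j _
      rw [ι.injective.extend_apply]
    · apply Finset.prod_congr rfl
      intro x hx
      rw [Function.extend_apply']
      rintro ⟨j, hj⟩
      rw [Finset.mem_compl, Finset.mem_map] at hx
      exact hx ⟨j, mem_univ _, hj⟩
  have h2 : ∏ x, f (t x) = (∏ j, f (t (ι j))) * ∏ x ∈ (univ.map ι)ᶜ, f (t x) := by
    rw [← Finset.prod_mul_prod_compl (univ.map ι), Finset.prod_map]
  rw [h1, h2]
  ac_rfl

lemma sum_extend {M : Type*} [AddCommGroup M] (f : S → M) (ι : Fin m ↪ I) (w : Fin m → S)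
    (t : I → S) :
    (∑ x, f (Function.extend ι w t x)) + ∑ j, f (t (ι j)) = (∑ x, f (t x)) + ∑ j, f (w j) :=
  prod_extend (M := Multiplicative M) f ι w t

open Classical in
lemma card_replace (α : S → A) (β : S → E) (ι : Fin m ↪ I) (v w : Fin m → S)
    (hv : ∏ j, α (v j) = 1) (hw : ∏ j, α (w j) = 1) (x : E) :
    ((cls α β I x).filter (fun t => ∀ j, t (ι j) = v j)).card ≤
      ((cls α β I (x + (∑ j, β (w j) - ∑ j, β (v j)))).filter (fun t => ∀ j, t (ι j) = w j)).card := by
  apply Finset.card_le_card_of_injOn (fun t => Function.extend ι w t)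
  · intro t ht
    rw [Finset.mem_coe, Finset.mem_filter, mem_cls] at ht
    obtain ⟨⟨h1, h2⟩, h3⟩ := ht
    rw [Finset.mem_coe, Finset.mem_filter, mem_cls]
    refine ⟨⟨?_, ?_⟩, ?_⟩
    · have := prod_extend α ι w t
      rw [h1, hw] at this
      simp only [h3, hv, mul_one] at this
      exact this
    · have := sum_extend β ι w t
      rw [h2] at this
      simp only [h3] at this
      rw [← add_sub_assoc, ← this, add_sub_cancel_right]
    · intro j
      exact ι.injective.extend_apply _ _ _
  · intro t ht t' ht' h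
    rw [Finset.mem_coe, Finset.mem_filter] at ht ht'
    funext x
    by_cases hx : ∃ j, ι j = x
    · obtain ⟨j, rfl⟩ := hx
      rw [ht.2 j, ht'.2 j]
    · have := congrFun h x
      simp only at this
      rwa [Function.extend_apply' _ _ _ hx, Function.extend_apply' _ _ _ hx] at this

end replace

/-! ### Blocks -/

section blocks

variable {J : Type*} [Fintype J] [DecidableEq J] {m L : ℕ}

open Classical in
/-- number of occurrences of the letter `s` in the block `i` -/
noncomputable def cnt (t : (Fin m × Fin L) ⊕ J → S) (i : Fin m) (s : S) : ℕ :=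
  (univ.filter (fun l : Fin L => t (Sum.inl (i, l)) = s)).card

/-- the embedding of a choice of one position in each block -/
def emb (J : Type*) (e : Fin m → Fin L) : Fin m ↪ (Fin m × Fin L) ⊕ J where
  toFun i := Sum.inl (i, e i)
  inj' := by
    intro i j h
    simp only [Sum.inl.injEq, Prod.mk.injEq] at h
    exact h.1

open Classical in
lemma sum_card_filter (F : Finset ((Fin m × Fin L) ⊕ J → S)) (v : Fin m → S) :
    ∑ e : Fin m → Fin L, (F.filter (fun t => ∀ j, t (emb J e j) = v j)).card =
      ∑ t ∈ F, ∏ i, cnt t i (v i) := by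
  have h1 : ∀ t : (Fin m × Fin L) ⊕ J → S, ∏ i, cnt t i (v i) =
      (univ.filter (fun e : Fin m → Fin L => ∀ j, t (emb J e j) = v j)).card := by
    intro t
    unfold cnt
    rw [← Fintype.card_piFinset]
    congr 1
    ext e
    simp only [Fintype.mem_piFinset, Finset.mem_filter, Finset.mem_univ, true_and]
    rfl
  simp_rw [h1, Finset.card_filter]
  rw [Finset.sum_comm]

lemma card_step (α : S → A) (β : S → E) (v w : Fin m → S)
    (hv : ∏ j, α (v j) = 1) (hw : ∏ j, α (w j) = 1) (x : E) :
    ∑ t ∈ cls α β ((Fin m × Fin L) ⊕ J) x, ∏ i, cnt t i (v i) ≤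
      ∑ t ∈ cls α β ((Fin m × Fin L) ⊕ J) (x + (∑ j, β (w j) - ∑ j, β (v j))),
        ∏ i, cnt t i (w i) := by
  classical
  rw [← sum_card_filter, ← sum_card_filter]
  apply Finset.sum_le_sum
  intro e _
  exact card_replace α β (emb J e) v w hv hw x

lemma cnt_le (t : (Fin m × Fin L) ⊕ J → S) (i : Fin m) (s : S) : cnt t i s ≤ L := by
  unfold cnt
  calc _ ≤ (univ : Finset (Fin L)).card := Finset.card_le_card (Finset.filter_subset _ _)
    _ = L := by simp

/-! ### Large deviations -/

lemma sum_pow_cnt (i : Fin m) (s : S) (x : ℝ) (hN : 0 < Fintype.card S) :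
    ∑ t : (Fin m × Fin L) ⊕ J → S, x ^ cnt t i s =
      (Fintype.card S : ℝ) ^ (Fintype.card ((Fin m × Fin L) ⊕ J)) *
        (1 + (x - 1) / Fintype.card S) ^ L := by
  classical
  set N : ℝ := (Fintype.card S : ℝ) with hNdef
  have hN' : N ≠ 0 := by rw [hNdef]; exact_mod_cast hN.ne'
  let g : (Fin m × Fin L) ⊕ J → S → ℝ :=
    Sum.elim (fun p s' => if p.1 = i ∧ s' = s then x else 1) (fun _ _ => 1)
  have h1 : ∀ t : (Fin m × Fin L) ⊕ J → S, x ^ cnt t i s = ∏ p, g p (t p) := by
    intro t
    rw [Fintype.prod_sum_type]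
    simp only [g, Sum.elim_inl, Sum.elim_inr, Finset.prod_const_one, mul_one]
    rw [Fintype.prod_prod_type, Finset.prod_eq_single i]
    · simp only [true_and, cnt]
      rw [Finset.prod_ite, Finset.prod_const_one, mul_one, Finset.prod_const]
    · intro b _ hb
      apply Finset.prod_eq_one
      intro l _
      simp [hb]
    · intro h
      exact absurd (mem_univ i) h
  simp_rw [h1]
  rw [← Fintype.piFinset_univ, ← Finset.prod_univ_sum]
  have h2 : ∀ p : (Fin m × Fin L) ⊕ J, ∑ s' : S, g p s' =
      N * (Sum.elim (fun p : Fin m × Fin L => if p.1 = i then 1 + (x - 1) / N else 1)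
        (fun _ : J => (1:ℝ)) p) := by
    intro p
    cases p with
    | inl q =>
      simp only [g, Sum.elim_inl]
      by_cases hq : q.1 = i
      · simp only [hq, true_and, if_true]
        rw [← Finset.add_sum_erase _ _ (mem_univ s)]
        simp only [if_true]
        rw [Finset.sum_congr rfl (g := fun _ => (1:ℝ))]
        · simp only [Finset.sum_const, Finset.card_erase_of_mem (mem_univ s), Finset.card_univ,
            nsmul_eq_mul, mul_one]
          rw [Nat.cast_sub (by omega)]
          rw [← hNdef]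
          field_simp
          push_cast
          ring
        · intro s' hs'
          rw [Finset.mem_erase] at hs'
          simp [hs'.1]
      · simp [hq, hNdef]
    | inr j =>
      simp [g, hNdef]
  simp_rw [h2]
  rw [Finset.prod_mul_distrib, Finset.prod_const, Finset.card_univ]
  congr 1
  rw [Fintype.prod_sum_type]
  simp only [Sum.elim_inl, Sum.elim_inr, Finset.prod_const_one, mul_one]
  rw [Fintype.prod_prod_type, Finset.prod_eq_single i]
  · simp
  · intro b _ hb
    simp [hb]
  · intro h
    exact absurd (mem_univ i) h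

/-- the rate -/
noncomputable def rate (N : ℝ) (y : ℝ) : ℝ := (1 + (y - 1) / N) * y ^ (-(y / N))

lemma rate_pos {N y : ℝ} (hN : 1 ≤ N) (hy : 0 < y) : 0 < rate N y := by
  unfold rate
  have h1 : 0 < 1 + (y - 1) / N := by
    have : (y - 1) / N > -1 := by
      rw [gt_iff_lt, lt_div_iff₀ (by linarith)]
      linarith
    linarith
  exact mul_pos h1 (Real.rpow_pos_of_pos hy _)

lemma rate_lt_one {N y : ℝ} (hN : 1 ≤ N) (hy : 0 < y) (hy1 : y ≠ 1) : rate N y < 1 := by
  have hN0 : 0 < N := by linarith
  have h1 : 0 < 1 + (y - 1) / N := by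
    have : (y - 1) / N > -1 := by
      rw [gt_iff_lt, lt_div_iff₀ hN0]
      linarith
    linarith
  have h2 : y - 1 < y * Real.log y := by
    have h3 : Real.log (y⁻¹) < y⁻¹ - 1 :=
      Real.log_lt_sub_one_of_pos (inv_pos.2 hy) (by
        intro h
        apply hy1
        rw [inv_eq_one] at h
        exact h)
    rw [Real.log_inv] at h3
    have h4 : y * (-Real.log y) < y * (y⁻¹ - 1) := mul_lt_mul_of_pos_left h3 hy
    have h5 : y * (y⁻¹ - 1) = 1 - y := by field_simp
    linarith
  have h6 : Real.log (rate N y) < 0 := by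
    unfold rate
    rw [Real.log_mul h1.ne' (Real.rpow_pos_of_pos hy _).ne', Real.log_rpow hy]
    have h7 : Real.log (1 + (y - 1) / N) ≤ (y - 1) / N := by
      have := Real.log_le_sub_one_of_pos h1
      linarith
    have h8 : (y - 1) / N < (y * Real.log y) / N := div_lt_div_of_pos_right h2 hN0
    have h9 : -(y / N) * Real.log y = -((y * Real.log y) / N) := by ring
    rw [h9]
    linarith
  by_contra hcon
  push Not at hcon
  have := Real.log_nonneg hcon
  linarith

open Classical in
lemma card_tail (i : Fin m) (s : S) (y : ℝ) (hy : 0 < y) (hN : 0 < Fintype.card S)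
    (P : ((Fin m × Fin L) ⊕ J → S) → Prop)
    (hP : ∀ t, P t → y ^ (y * L / Fintype.card S : ℝ) ≤ y ^ (cnt t i s : ℝ)) :
    ((univ.filter P).card : ℝ) ≤ (Fintype.card S : ℝ) ^ (Fintype.card ((Fin m × Fin L) ⊕ J)) *
      (rate (Fintype.card S) y) ^ L := by
  have h1 : ((univ.filter P).card : ℝ) * y ^ (y * L / Fintype.card S : ℝ) ≤
      ∑ t : (Fin m × Fin L) ⊕ J → S, y ^ cnt t i s := by
    calc ((univ.filter P).card : ℝ) * y ^ (y * L / Fintype.card S : ℝ)
        = ∑ t ∈ univ.filter P, y ^ (y * L / Fintype.card S : ℝ) := by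
          rw [Finset.sum_const, nsmul_eq_mul]
      _ ≤ ∑ t ∈ univ.filter P, y ^ cnt t i s := by
          apply Finset.sum_le_sum
          intro t ht
          rw [Finset.mem_filter] at ht
          have := hP t ht.2
          rwa [Real.rpow_natCast] at this
      _ ≤ _ := by
          apply Finset.sum_le_univ_sum_of_nonneg
          intro t
          positivity
  rw [sum_pow_cnt i s y hN] at h1
  have h2 : 0 < y ^ (y * L / Fintype.card S : ℝ) := Real.rpow_pos_of_pos hy _
  rw [← le_div_iff₀ h2] at h1
  refine h1.trans (le_of_eq ?_)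
  unfold rate
  rw [mul_pow, mul_div_assoc]
  congr 1
  rw [div_eq_mul_inv]
  congr 1
  rw [← Real.rpow_neg hy.le, ← Real.rpow_natCast, ← Real.rpow_mul hy.le]
  congr 1
  ring

/-- words in which every letter occurs in every block with about the average frequency -/
def Typ (δ : ℝ) (t : (Fin m × Fin L) ⊕ J → S) : Prop :=
  ∀ i s, (1 - δ) * L / Fintype.card S ≤ (cnt t i s : ℝ) ∧
    (cnt t i s : ℝ) ≤ (1 + δ) * L / Fintype.card S

open Classical in
lemma card_not_typ (δ : ℝ) (hδ : 0 < δ) (hδ1 : δ < 1) (hN : 0 < Fintype.card S) :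
    ((univ.filter (fun t : (Fin m × Fin L) ⊕ J → S => ¬ Typ δ t)).card : ℝ) ≤
      m * Fintype.card S * ((Fintype.card S : ℝ) ^ (Fintype.card ((Fin m × Fin L) ⊕ J)) *
        (rate (Fintype.card S) (1 - δ)) ^ L + (Fintype.card S : ℝ) ^
        (Fintype.card ((Fin m × Fin L) ⊕ J)) * (rate (Fintype.card S) (1 + δ)) ^ L) := by
  have hsub : (univ.filter (fun t : (Fin m × Fin L) ⊕ J → S => ¬ Typ δ t)) ⊆
      (univ : Finset (Fin m × S)).biUnion (fun p =>
        (univ.filter (fun t : (Fin m × Fin L) ⊕ J → S =>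
          (cnt t p.1 p.2 : ℝ) < (1 - δ) * L / Fintype.card S)) ∪
        (univ.filter (fun t : (Fin m × Fin L) ⊕ J → S =>
          (1 + δ) * L / Fintype.card S < (cnt t p.1 p.2 : ℝ)))) := by
    intro t ht
    rw [Finset.mem_filter] at ht
    have h1 := ht.2
    unfold Typ at h1
    push Not at h1
    obtain ⟨i, s, h2⟩ := h1
    rw [Finset.mem_biUnion]
    refine ⟨(i, s), mem_univ _, ?_⟩
    rw [Finset.mem_union, Finset.mem_filter, Finset.mem_filter]
    by_cases h3 : (1 - δ) * L / Fintype.card S ≤ (cnt t i s : ℝ)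
    · right
      exact ⟨mem_univ _, h2 h3⟩
    · left
      exact ⟨mem_univ _, not_le.1 h3⟩
  have h1 : ((univ.filter (fun t : (Fin m × Fin L) ⊕ J → S => ¬ Typ δ t)).card : ℝ) ≤
      ∑ p : Fin m × S, (((univ.filter (fun t : (Fin m × Fin L) ⊕ J → S =>
          (cnt t p.1 p.2 : ℝ) < (1 - δ) * L / Fintype.card S)).card : ℝ) +
        ((univ.filter (fun t : (Fin m × Fin L) ⊕ J → S =>
          (1 + δ) * L / Fintype.card S < (cnt t p.1 p.2 : ℝ))).card : ℝ)) := by
    have h2 := (Finset.card_le_card hsub).trans (Finset.card_biUnion_le)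
    have h3 : ∑ p : Fin m × S, (((univ.filter (fun t : (Fin m × Fin L) ⊕ J → S =>
          (cnt t p.1 p.2 : ℝ) < (1 - δ) * L / Fintype.card S)) ∪
        (univ.filter (fun t : (Fin m × Fin L) ⊕ J → S =>
          (1 + δ) * L / Fintype.card S < (cnt t p.1 p.2 : ℝ)))).card) ≤
        ∑ p : Fin m × S, ((univ.filter (fun t : (Fin m × Fin L) ⊕ J → S =>
          (cnt t p.1 p.2 : ℝ) < (1 - δ) * L / Fintype.card S)).card +
        (univ.filter (fun t : (Fin m × Fin L) ⊕ J → S =>
          (1 + δ) * L / Fintype.card S < (cnt t p.1 p.2 : ℝ))).card) :=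
      Finset.sum_le_sum (fun p _ => Finset.card_union_le _ _)
    have h4 := h2.trans h3
    exact_mod_cast h4
  refine h1.trans ?_
  have h5 : ∀ p : Fin m × S, (((univ.filter (fun t : (Fin m × Fin L) ⊕ J → S =>
          (cnt t p.1 p.2 : ℝ) < (1 - δ) * L / Fintype.card S)).card : ℝ) +
        ((univ.filter (fun t : (Fin m × Fin L) ⊕ J → S =>
          (1 + δ) * L / Fintype.card S < (cnt t p.1 p.2 : ℝ))).card : ℝ)) ≤
      ((Fintype.card S : ℝ) ^ (Fintype.card ((Fin m × Fin L) ⊕ J)) *
        (rate (Fintype.card S) (1 - δ)) ^ L + (Fintype.card S : ℝ) ^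
        (Fintype.card ((Fin m × Fin L) ⊕ J)) * (rate (Fintype.card S) (1 + δ)) ^ L) := by
    intro p
    apply add_le_add
    · apply card_tail p.1 p.2 (1 - δ) (by linarith) hN
      intro t ht
      exact Real.rpow_le_rpow_of_exponent_ge (by linarith) (by linarith) ht.le
    · apply card_tail p.1 p.2 (1 + δ) (by linarith) hN
      intro t ht
      exact Real.rpow_le_rpow_of_exponent_le (by linarith) ht.le
  refine (Finset.sum_le_sum (fun p _ => h5 p)).trans (le_of_eq ?_)
  rw [Finset.sum_const, Finset.card_univ, Fintype.card_prod, Fintype.card_fin, nsmul_eq_mul]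
  push_cast
  ring

end blocks

end Pool.Agent.Helper32.ZeroOne
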