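import Mathlib

/-!
Definitions for products of gamma values at rational points.
-/

namespace Pool.Agent.Helper32.ZeroOne

/-- `Γ(a_1) ... Γ(a_r)` is an algebraic multiple of `π ^ (r / 2)`. -/
def GammaMult {r : ℕ} (a : Fin r → ℚ) : Prop :=
  ∃ α : ℝ, IsAlgebraic ℚ α ∧ ∏ i, Real.Gamma ((a i : ℚ) : ℝ) = α * Real.pi ^ ((r : ℝ) / 2)

/-- The fractional-part identity for `a_1, ..., a_r` with common denominator `D`. -/
def FracId (D : ℕ) {r : ℕ} (a : Fin r → ℚ) : Prop :=
  ∀ m : ℕ, 1 ≤ m → m < D → Nat.Coprime m D →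
    ∑ i, Int.fract ((m : ℚ) * a i) = (r : ℚ) / 2

/-- The points `j_1 / D, ..., j_r / D`. -/
def pts (D : ℕ) {r : ℕ} (j : Fin r → ℕ) : Fin r → ℚ := fun i => (j i : ℚ) / D

/-- The `r`-tuples of integers between `1` and `D`. -/
def box (D r : ℕ) : Finset (Fin r → ℕ) := Fintype.piFinset (fun _ : Fin r => Finset.Icc 1 D)

open Classical in
/-- The number of `r`-tuples `(j_1, ..., j_r)`, `1 ≤ j_i ≤ D`, such that the product of the
`Γ(j_i / D)` is an algebraic multiple of `π ^ (r / 2)`. -/
noncomputable def gammaCount (D r : ℕ) : ℕ :=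
  ((box D r).filter (fun j => GammaMult (pts D j))).card

open Classical in
/-- The number of those which in addition satisfy the fractional-part identity. -/
noncomputable def bothCount (D r : ℕ) : ℕ :=
  ((box D r).filter (fun j => GammaMult (pts D j) ∧ FracId D (pts D j))).card

end Pool.Agent.Helper32.ZeroOne
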