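import Pool.Agent.Helper32.ZeroOne.Law

/-!
The zero-one law with one additional letter (`none`) that occurs in no doubly closed word.
-/

namespace Pool.Agent.Helper32.ZeroOne

open Finset Filter

set_option linter.unusedSectionVars false
set_option maxHeartbeats 2000000

variable {S : Type*} [Fintype S] [DecidableEq S]
variable {A : Type*} [CommGroup A] {E : Type*} [AddCommGroup E]

lemma prod_extend' {M : Type*} [CommGroup M] {I : Type*} [Fintype I] [DecidableEq I] {m : ℕ}
    (f : Option S → M) (ι : Fin m ↪ I) (w : Fin m → Option S) (t : I → S) :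
    (∏ x, f (Function.extend ι w (fun x => some (t x)) x)) * ∏ j, f (some (t (ι j))) =
      (∏ x, f (some (t x))) * ∏ j, f (w j) :=
  prod_extend (S := Option S) f ι w (fun x => some (t x))

section

variable {J : Type*} [Fintype J] [DecidableEq J] {m L : ℕ}

open Classical in
lemma card_replace' (α : Option S → A) (β : S → E) {I : Type*} [Fintype I] [DecidableEq I]
    (ι : Fin m ↪ I) (q : Fin m → S) (z : Fin m → Option S)
    (hq : ∏ j, α (some (q j)) = 1) (hz : ∏ j, α (z j) = 1) :
    ((cls (fun s => α (some s)) β I 0).filter (fun t => ∀ j, t (ι j) = q j)).card ≤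
      ((allS α I).filter (fun t => (∀ j, t (ι j) = z j) ∧
        ∀ x, x ∉ Set.range ι → t x ≠ none)).card := by
  apply Finset.card_le_card_of_injOn (fun t => Function.extend ι z (fun x => some (t x)))
  · intro t ht
    rw [Finset.mem_coe, Finset.mem_filter, mem_cls] at ht
    obtain ⟨⟨h1, h2⟩, h3⟩ := ht
    rw [Finset.mem_coe, Finset.mem_filter, mem_allS]
    refine ⟨?_, ?_, ?_⟩
    · have := prod_extend' α ι z t
      rw [h1, hz] at this
      simp only [h3, hq, mul_one] at this
      exact this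
    · intro j
      exact ι.injective.extend_apply _ _ _
    · intro x hx
      have hx' : ¬ ∃ j, ι j = x := hx
      simp only
      rw [Function.extend_apply' _ _ _ hx']
      simp
  · intro t ht t' ht' h
    rw [Finset.mem_coe, Finset.mem_filter] at ht ht'
    funext x
    by_cases hx : ∃ j, ι j = x
    · obtain ⟨j, rfl⟩ := hx
      rw [ht.2 j, ht'.2 j]
    · have := congrFun h x
      simp only at this
      rw [Function.extend_apply' _ _ _ hx, Function.extend_apply' _ _ _ hx] at this
      exact Option.some_injective _ this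

open Classical in
lemma card_choices (z : Fin m → Option S) (i₀ : Fin m) (hi₀ : z i₀ = none) (hL : 0 < L)
    (t : (Fin m × Fin L) ⊕ J → Option S) :
    (univ.filter (fun e : Fin m → Fin L => (∀ j, t (emb J e j) = z j) ∧
        ∀ x, x ∉ Set.range (emb J e) → t x ≠ none)).card ≤ L ^ (m - 1) := by
  rcases (univ.filter (fun e : Fin m → Fin L => (∀ j, t (emb J e j) = z j) ∧
        ∀ x, x ∉ Set.range (emb J e) → t x ≠ none)).eq_empty_or_nonempty with h | ⟨e₀, he₀⟩
  · rw [h]
    simp
  rw [Finset.mem_filter] at he₀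
  obtain ⟨_, h1, h2⟩ := he₀
  -- the value at `i₀` is determined
  have key : ∀ e : Fin m → Fin L, ((∀ j, t (emb J e j) = z j) ∧
        ∀ x, x ∉ Set.range (emb J e) → t x ≠ none) → e i₀ = e₀ i₀ := by
    intro e he
    by_contra hne
    have h3 : t (Sum.inl (i₀, e i₀)) = none := by
      have := he.1 i₀
      rw [hi₀] at this
      exact this
    refine h2 (Sum.inl (i₀, e i₀)) ?_ h3
    rintro ⟨j, hj⟩
    have hj' : (Sum.inl (j, e₀ j) : (Fin m × Fin L) ⊕ J) = Sum.inl (i₀, e i₀) := hj
    simp only [Sum.inl.injEq, Prod.mk.injEq] at hj'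
    obtain ⟨h5, h4⟩ := hj'
    rw [h5] at h4
    exact hne h4.symm
  calc (univ.filter (fun e : Fin m → Fin L => (∀ j, t (emb J e j) = z j) ∧
        ∀ x, x ∉ Set.range (emb J e) → t x ≠ none)).card
      ≤ (Fintype.piFinset (fun i => if i = i₀ then ({e₀ i₀} : Finset (Fin L)) else univ)).card := by
        apply Finset.card_le_card
        intro e he
        rw [Finset.mem_filter] at he
        rw [Fintype.mem_piFinset]
        intro i
        by_cases hi : i = i₀
        · subst hi
          rw [if_pos rfl, Finset.mem_singleton]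
          exact key e he.2
        · rw [if_neg hi]
          exact mem_univ _
    _ = L ^ (m - 1) := by
        rw [Fintype.card_piFinset, ← Finset.mul_prod_erase _ _ (mem_univ i₀)]
        rw [if_pos rfl, Finset.card_singleton, one_mul]
        rw [Finset.prod_congr rfl (g := fun _ => L)]
        · rw [Finset.prod_const, Finset.card_erase_of_mem (mem_univ _), Finset.card_univ,
            Fintype.card_fin]
        · intro i hi
          rw [Finset.mem_erase] at hi
          rw [if_neg hi.1]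
          simp

lemma extra_step (α : Option S → A) (β : S → E) (q : Fin m → S) (z : Fin m → Option S)
    (hq : ∏ j, α (some (q j)) = 1) (hz : ∏ j, α (z j) = 1) (i₀ : Fin m) (hi₀ : z i₀ = none)
    (hL : 0 < L) :
    ∑ t ∈ cls (fun s => α (some s)) β ((Fin m × Fin L) ⊕ J) 0, ∏ i, cnt t i (q i) ≤
      (allS α ((Fin m × Fin L) ⊕ J)).card * L ^ (m - 1) := by
  classical
  rw [← sum_card_filter]
  calc ∑ e : Fin m → Fin L, ((cls (fun s => α (some s)) β ((Fin m × Fin L) ⊕ J) 0).filter
        (fun t => ∀ j, t (emb J e j) = q j)).card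
      ≤ ∑ e : Fin m → Fin L, ((allS α ((Fin m × Fin L) ⊕ J)).filter
        (fun t => (∀ j, t (emb J e j) = z j) ∧
        ∀ x, x ∉ Set.range (emb J e) → t x ≠ none)).card :=
        Finset.sum_le_sum (fun e _ => card_replace' α β (emb J e) q z hq hz)
    _ = ∑ t ∈ allS α ((Fin m × Fin L) ⊕ J), (univ.filter (fun e : Fin m → Fin L =>
          (∀ j, t (emb J e j) = z j) ∧ ∀ x, x ∉ Set.range (emb J e) → t x ≠ none)).card := by
        simp_rw [Finset.card_filter]
        rw [Finset.sum_comm]
    _ ≤ ∑ t ∈ allS α ((Fin m × Fin L) ⊕ J), L ^ (m - 1) :=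
        Finset.sum_le_sum (fun t _ => card_choices z i₀ hi₀ hL t)
    _ = _ := by rw [Finset.sum_const, smul_eq_mul]

lemma sum_cnt_ge (F : Finset ((Fin m × Fin L) ⊕ J → S)) (q : Fin m → S) (δ : ℝ) (hδ1 : δ < 1) :
    ((1 - δ) * L / (Fintype.card S : ℝ)) ^ m * ((F.card : ℝ) - bad S J m L δ) ≤
      ∑ t ∈ F, ∏ i, (cnt t i (q i) : ℝ) := by
  classical
  have h7 : 0 ≤ (1 - δ) * L / (Fintype.card S : ℝ) := by
    have : 0 < 1 - δ := by linarith
    positivity
  have h2 : (F.card : ℝ) - bad S J m L δ ≤ ((F.filter (fun t => Typ δ t)).card : ℝ) := by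
    have h3 : (F.filter (fun t => ¬ Typ δ t)).card ≤ bad S J m L δ := by
      unfold bad
      apply Finset.card_le_card
      intro t ht
      rw [Finset.mem_filter] at ht ⊢
      exact ⟨mem_univ _, ht.2⟩
    have h4 := Finset.card_filter_add_card_filter_not (s := F) (fun t => Typ δ t)
    have h5 : (F.card : ℝ) = ((F.filter (fun t => Typ δ t)).card : ℝ) +
        ((F.filter (fun t => ¬ Typ δ t)).card : ℝ) := by exact_mod_cast h4.symm
    have h6 : ((F.filter (fun t => ¬ Typ δ t)).card : ℝ) ≤ bad S J m L δ := by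
      exact_mod_cast h3
    linarith
  calc ((1 - δ) * L / (Fintype.card S : ℝ)) ^ m * ((F.card : ℝ) - bad S J m L δ)
      ≤ ((1 - δ) * L / (Fintype.card S : ℝ)) ^ m * ((F.filter (fun t => Typ δ t)).card : ℝ) := by
        gcongr
    _ = ∑ t ∈ F.filter (fun t => Typ δ t), ((1 - δ) * L / (Fintype.card S : ℝ)) ^ m := by
        rw [Finset.sum_const, nsmul_eq_mul, mul_comm]
    _ ≤ ∑ t ∈ F.filter (fun t => Typ δ t), ∏ i, (cnt t i (q i) : ℝ) := by
        apply Finset.sum_le_sum
        intro t ht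
        rw [Finset.mem_filter] at ht
        calc ((1 - δ) * L / (Fintype.card S : ℝ)) ^ m =
              ∏ i : Fin m, ((1 - δ) * L / (Fintype.card S : ℝ)) := by
              rw [Finset.prod_const, Finset.card_univ, Fintype.card_fin]
          _ ≤ _ := Finset.prod_le_prod (fun _ _ => h7) (fun i _ => (ht.2 i (q i)).1)
    _ ≤ ∑ t ∈ F, ∏ i, (cnt t i (q i) : ℝ) := by
        apply Finset.sum_le_sum_of_subset_of_nonneg (Finset.filter_subset _ _)
        intro t _ _
        positivity

end

/-- words over `S` among all words over `Option S` -/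
lemma allS_le (α : Option S → A) (I : Type*) [Fintype I] [DecidableEq I] :
    (allS (fun s => α (some s)) I).card ≤ (allS α I).card := by
  apply Finset.card_le_card_of_injOn (fun t x => some (t x))
  · intro t ht
    rw [Finset.mem_coe, mem_allS] at *
    exact ht
  · intro t _ t' _ h
    funext x
    exact Option.some_injective _ (congrFun h x)

theorem extra_law (α : Option S → A) (β : S → E) (ν : S → S) (hν : Function.Involutive ν)
    (hα : ∀ s, α (some (ν s)) = (α (some s))⁻¹) (hβ : ∀ s, β (ν s) = - β s)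
    (s₀ : S) {n : ℕ} (z : Fin n → Option S) (hz : ∏ i, α (z i) = 1) (i₀ : Fin n)
    (hi₀ : z i₀ = none) (ε : ℝ) (hε : 0 < ε) :
    ∃ R : ℕ, ∀ r, R ≤ r →
      ((cls (fun s => α (some s)) β (Fin r) 0).card : ℝ) ≤ ε * (allS α (Fin r)).card := by
  classical
  have hN : 0 < Fintype.card S := Fintype.card_pos_iff.2 ⟨s₀⟩
  have hN1 : (1 : ℝ) ≤ Fintype.card S := by exact_mod_cast hN
  obtain ⟨C, r₁, hC, hlow⟩ := low (fun s => α (some s)) β ν hν hα hβ hN
  set N : ℝ := (Fintype.card S : ℝ) with hNdef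
  -- double the word
  obtain ⟨m, hm⟩ : ∃ m, m = n + n := ⟨_, rfl⟩
  have hn : 0 < n := lt_of_le_of_lt (Nat.zero_le _) i₀.2
  have hm0 : 0 < m := by omega
  obtain ⟨z', q, j₀, hz', hj₀, hq⟩ : ∃ (z' : Fin m → Option S) (q : Fin m → S) (j₀ : Fin m),
      ∏ i, α (z' i) = 1 ∧ z' j₀ = none ∧ ∏ i, α (some (q i)) = 1 := by
    subst hm
    refine ⟨Fin.append z z, Fin.append (fun _ => s₀) (fun _ => ν s₀), Fin.castAdd n i₀, ?_, ?_, ?_⟩
    · rw [Fin.prod_univ_add]
      simp only [Fin.append_left, Fin.append_right, hz, mul_one]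
    · rw [Fin.append_left]
      exact hi₀
    · rw [Fin.prod_univ_add]
      simp only [Fin.append_left, Fin.append_right, hα, Finset.prod_const, inv_pow]
      exact mul_inv_cancel _
  obtain ⟨δ, hδdef⟩ : ∃ δ : ℝ, δ = 1 / 2 := ⟨_, rfl⟩
  have hδ : 0 < δ := by rw [hδdef]; norm_num
  have hδ1 : δ < 1 := by rw [hδdef]; norm_num
  set θ : ℝ := max (rate N (1 - δ)) (rate N (1 + δ)) with hθdef
  have hθ0 : 0 < θ := lt_max_of_lt_left (rate_pos hN1 (by linarith))
  have hθ1 : θ < 1 := max_lt (rate_lt_one hN1 (by linarith) (by linarith))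
    (rate_lt_one hN1 (by linarith) (by linarith))
  set D : ℝ := (m * N * 2) * (C * (m : ℝ) ^ (Fintype.card S)) with hD
  have hmr : (1 : ℝ) ≤ m := by exact_mod_cast hm0
  have hD0 : 0 < D := by positivity
  have hlim : Tendsto (fun L : ℕ => ((L : ℝ) + 1) ^ (Fintype.card S) * θ ^ L) atTop (nhds 0) := by
    have h1 := tendsto_pow_const_mul_const_pow_of_abs_lt_one (Fintype.card S)
      (r := θ) (by rw [abs_of_pos hθ0]; exact hθ1)
    have h2 := (tendsto_add_atTop_iff_nat 1).2 h1
    have h3 := h2.mul_const (θ⁻¹)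
    rw [zero_mul] at h3
    refine h3.congr ?_
    intro L
    push_cast
    rw [pow_succ]
    field_simp
  have hev : ∀ᶠ L : ℕ in atTop, ((L : ℝ) + 1) ^ (Fintype.card S) * θ ^ L < ε / 2 / D :=
    hlim.eventually_lt_const (by positivity)
  obtain ⟨L₀, hL₀⟩ := eventually_atTop.1 hev
  obtain ⟨L₁, hL₁⟩ := exists_nat_gt ((N / (1 - δ)) ^ m / (ε / 2))
  refine ⟨m * (L₀ + L₁ + 1) + r₁, ?_⟩
  intro r hr
  rcases (cls (fun s => α (some s)) β (Fin r) 0).eq_empty_or_nonempty with hemp | hne
  · rw [hemp]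
    simp only [Finset.card_empty, Nat.cast_zero]
    positivity
  have hl := hlow r (by omega) hne
  set L := r / m with hLdef
  have hLge : L₀ + L₁ + 1 ≤ L := by
    rw [hLdef, Nat.le_div_iff_mul_le hm0]
    nlinarith
  have hL : 0 < L := by omega
  have hrL : r + 1 ≤ m * (L + 1) := by
    have := Nat.lt_mul_div_succ r hm0
    rw [← hLdef] at this
    omega
  let J := Fin (r % m)
  have hcard : Fintype.card ((Fin m × Fin L) ⊕ J) = Fintype.card (Fin r) := by
    simp only [Fintype.card_sum, Fintype.card_prod, Fintype.card_fin, J]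
    exact Nat.div_add_mod r m
  have hcard' : Fintype.card ((Fin m × Fin L) ⊕ J) = r := by
    rw [hcard, Fintype.card_fin]
  let e : (Fin m × Fin L) ⊕ J ≃ Fin r := Fintype.equivOfCardEq hcard
  rw [← card_cls_congr (fun s => α (some s)) β e 0, ← card_allS_congr α e]
  rw [← card_allS_congr (fun s => α (some s)) e] at hl
  set F := cls (fun s => α (some s)) β ((Fin m × Fin L) ⊕ J) 0 with hF
  set c₀ : ℝ := (F.card : ℝ) with hc₀
  set a : ℝ := ((allS α ((Fin m × Fin L) ⊕ J)).card : ℝ) with ha
  have ha0 : 0 ≤ a := by rw [ha]; positivity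
  have hLr : (0 : ℝ) < L := by exact_mod_cast hL
  have hN0 : 0 < N := by linarith
  -- main inequality
  have h0 : ((∑ t ∈ F, ∏ i, cnt t i (q i) : ℕ) : ℝ) ≤
      (((allS α ((Fin m × Fin L) ⊕ J)).card * L ^ (m - 1) : ℕ) : ℝ) := by
    exact_mod_cast extra_step (J := J) (L := L) α β q z' hq hz' j₀ hj₀ hL
  push_cast at h0
  rw [← ha] at h0
  have h7 : 0 < (1 - δ) * L / N := by
    have : 0 < 1 - δ := by linarith
    positivity
  have h1 : ((1 - δ) * L / N) ^ m * (c₀ - bad S J m L δ) ≤
      ∑ t ∈ F, ∏ i, (cnt t i (q i) : ℝ) := sum_cnt_ge F q δ hδ1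
  have h2 := h1.trans h0
  -- divide
  have h3 : c₀ ≤ bad S J m L δ + (N / (1 - δ)) ^ m / L * a := by
    have e1 : ((1 - δ) * L / N) ^ m * ((N / (1 - δ)) ^ m / L * a) = a * (L : ℝ) ^ (m - 1) := by
      have e2 : ((1 - δ) * L / N) ^ m * (N / (1 - δ)) ^ m = (L : ℝ) ^ m := by
        rw [← mul_pow]
        congr 1
        have : 1 - δ ≠ 0 := by linarith
        field_simp
      have e3 : (L : ℝ) ^ m = (L : ℝ) ^ (m - 1) * L := by
        rw [← pow_succ]
        congr 1
        omega
      calc ((1 - δ) * L / N) ^ m * ((N / (1 - δ)) ^ m / L * a)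
          = (((1 - δ) * L / N) ^ m * (N / (1 - δ)) ^ m) / L * a := by ring
        _ = a * (L : ℝ) ^ (m - 1) := by
            rw [e2, e3]
            field_simp
    rw [← e1] at h2
    have h4 := le_of_mul_le_mul_left h2 (pow_pos h7 m)
    linarith
  have h4 : (N / (1 - δ)) ^ m / L * a ≤ ε / 2 * a := by
    apply mul_le_mul_of_nonneg_right _ ha0
    rw [div_le_iff₀ hLr]
    rw [div_lt_iff₀ (by positivity)] at hL₁
    have : (L₁ : ℝ) ≤ L := by exact_mod_cast (by omega : L₁ ≤ L)
    nlinarith
  have hTle : (bad S J m L δ : ℝ) ≤ ε / 2 * a := by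
    have h1 := card_not_typ (S := S) (J := J) (m := m) (L := L) δ hδ hδ1 hN
    have h2 : (bad S J m L δ : ℝ) ≤ m * N * 2 * (N ^ r * θ ^ L) := by
      unfold bad
      refine h1.trans ?_
      rw [hcard']
      have h3 : (rate N (1 - δ)) ^ L ≤ θ ^ L :=
        pow_le_pow_left₀ (rate_pos hN1 (by linarith)).le (le_max_left _ _) _
      have h4 : (rate N (1 + δ)) ^ L ≤ θ ^ L :=
        pow_le_pow_left₀ (rate_pos hN1 (by linarith)).le (le_max_right _ _) _
      have h5 : N ^ r * (rate N (1 - δ)) ^ L ≤ N ^ r * θ ^ L :=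
        mul_le_mul_of_nonneg_left h3 (by positivity)
      have h6 : N ^ r * (rate N (1 + δ)) ^ L ≤ N ^ r * θ ^ L :=
        mul_le_mul_of_nonneg_left h4 (by positivity)
      calc (m : ℝ) * N * (N ^ r * rate N (1 - δ) ^ L + N ^ r * rate N (1 + δ) ^ L)
          ≤ m * N * (N ^ r * θ ^ L + N ^ r * θ ^ L) := by gcongr
        _ = _ := by ring
    have hle : ((allS (fun s => α (some s)) ((Fin m × Fin L) ⊕ J)).card : ℝ) ≤ a := by
      rw [ha]
      exact_mod_cast allS_le α _
    have h3 : N ^ r ≤ C * ((m : ℝ) ^ (Fintype.card S) * ((L : ℝ) + 1) ^ (Fintype.card S)) * a := by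
      refine hl.trans ?_
      have h4 : ((r : ℝ) + 1) ^ (Fintype.card S) ≤
          (m : ℝ) ^ (Fintype.card S) * ((L : ℝ) + 1) ^ (Fintype.card S) := by
        rw [← mul_pow]
        apply pow_le_pow_left₀ (by positivity)
        exact_mod_cast hrL
      gcongr
    have h5 := hL₀ L (by omega)
    have hθL : 0 ≤ θ ^ L := by positivity
    calc (bad S J m L δ : ℝ) ≤ (m * N * 2 * (N ^ r * θ ^ L)) := h2
      _ ≤ (m * N * 2 *
          ((C * ((m : ℝ) ^ (Fintype.card S) * ((L : ℝ) + 1) ^ (Fintype.card S)) * a) * θ ^ L)) := by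
          gcongr
      _ = D * (((L : ℝ) + 1) ^ (Fintype.card S) * θ ^ L) * a := by rw [hD]; ring
      _ ≤ D * (ε / 2 / D) * a := by
          gcongr
      _ = ε / 2 * a := by
          field_simp
  linarith

end Pool.Agent.Helper32.ZeroOne
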