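import Pool.Agent.Helper32.ZeroOne.Core

/-!
The zero-one law for closed words.
-/

namespace Pool.Agent.Helper32.ZeroOne

open Finset Filter

set_option linter.unusedSectionVars false
set_option maxHeartbeats 2000000

variable {S : Type*} [Fintype S] [DecidableEq S]
variable {A : Type*} [CommGroup A] {E : Type*} [AddCommGroup E]

/-! ### Many closed words -/

/-- count vector -/
noncomputable def cv (s : ℕ) (t : Fin s → S) : S → Fin (s + 1) := fun x =>
  ⟨(univ.filter (fun i => t i = x)).card, by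
    have := Finset.card_le_card (Finset.filter_subset (fun i => t i = x) univ)
    rw [Finset.card_univ, Fintype.card_fin] at this
    omega⟩

lemma cv_eq {s : ℕ} {t t' : Fin s → S} (h : cv s t = cv s t') (x : S) :
    (univ.filter (fun i => t i = x)).card = (univ.filter (fun i => t' i = x)).card := by
  have := congrFun h x
  unfold cv at this
  simpa [Fin.ext_iff] using this

lemma prod_eq_of_cv {M : Type*} [CommMonoid M] (f : S → M) {s : ℕ} {t t' : Fin s → S}
    (h : cv s t = cv s t') : ∏ i, f (t i) = ∏ i, f (t' i) := by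
  have key : ∀ t : Fin s → S, ∏ i, f (t i) =
      ∏ x : S, f x ^ (univ.filter (fun i => t i = x)).card := by
    intro t
    rw [← Finset.prod_fiberwise' univ t f]
    apply Finset.prod_congr rfl
    intro x _
    rw [Finset.prod_const]
  rw [key t, key t']
  apply Finset.prod_congr rfl
  intro x _
  rw [cv_eq h x]

lemma sum_eq_of_cv {M : Type*} [AddCommMonoid M] (f : S → M) {s : ℕ} {t t' : Fin s → S}
    (h : cv s t = cv s t') : ∑ i, f (t i) = ∑ i, f (t' i) :=
  prod_eq_of_cv (M := Multiplicative M) f h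

lemma low_even (α : S → A) (β : S → E) (ν : S → S) (hν : Function.Involutive ν)
    (hα : ∀ s, α (ν s) = (α s)⁻¹) (hβ : ∀ s, β (ν s) = - β s) (s : ℕ) :
    ((Fintype.card S) ^ s) ^ 2 ≤ (s + 1) ^ (Fintype.card S) *
      (cls α β (Fin s ⊕ Fin s) 0).card := by
  classical
  have h1 : (Fintype.card S) ^ s = ∑ c : S → Fin (s + 1),
      (univ.filter (fun t : Fin s → S => cv s t = c)).card := by
    rw [← Finset.card_eq_sum_card_fiberwise (f := cv s) (s := univ) (t := univ)
      (fun _ _ => mem_univ _)]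
    simp
  rw [h1]
  have h2 := sq_sum_le_card_mul_sum_sq (s := (univ : Finset (S → Fin (s + 1))))
    (f := fun c => (univ.filter (fun t : Fin s → S => cv s t = c)).card)
  refine h2.trans ?_
  rw [Finset.card_univ, Fintype.card_fun, Fintype.card_fin]
  apply Nat.mul_le_mul_left
  -- pairs
  let P : Finset ((Fin s → S) × (Fin s → S)) := univ.filter (fun p => cv s p.1 = cv s p.2)
  have h3 : ∑ c : S → Fin (s + 1), ((univ.filter (fun t : Fin s → S => cv s t = c)).card) ^ 2 =
      P.card := by
    rw [Finset.card_eq_sum_card_fiberwise (f := fun p => cv s p.1) (s := P) (t := univ)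
      (fun _ _ => mem_univ _)]
    apply Finset.sum_congr rfl
    intro c _
    rw [sq, ← Finset.card_product]
    congr 1
    ext p
    simp only [Finset.mem_product, Finset.mem_filter, Finset.mem_univ, true_and, P]
    constructor
    · rintro ⟨h, h'⟩
      exact ⟨h.trans h'.symm, h⟩
    · rintro ⟨h, h'⟩
      exact ⟨h', h.symm.trans h'⟩
  rw [h3]
  apply Finset.card_le_card_of_injOn (fun p => Sum.elim p.1 (ν ∘ p.2))
  · intro p hp
    rw [Finset.mem_coe, Finset.mem_filter] at hp
    rw [Finset.mem_coe, mem_cls]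
    refine ⟨?_, ?_⟩
    · rw [Fintype.prod_sum_type]
      simp only [Sum.elim_inl, Sum.elim_inr, Function.comp_apply, hα, Finset.prod_inv_distrib]
      rw [prod_eq_of_cv α hp.2, mul_inv_cancel]
    · rw [Fintype.sum_sum_type]
      simp only [Sum.elim_inl, Sum.elim_inr, Function.comp_apply, hβ, Finset.sum_neg_distrib]
      rw [sum_eq_of_cv β hp.2, add_neg_cancel]
  · rintro ⟨a, b⟩ _ ⟨a', b'⟩ _ h
    simp only at h
    have h4 : a = a' := by
      funext i
      have := congrFun h (Sum.inl i)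
      simpa using this
    have h5 : b = b' := by
      funext i
      have := congrFun h (Sum.inr i)
      simp only [Sum.elim_inr, Function.comp_apply] at this
      exact hν.injective this
    rw [h4, h5]

/-- the number of closed words is at least total over a polynomial as soon as there is a doubly
closed one -/
lemma low (α : S → A) (β : S → E) (ν : S → S) (hν : Function.Involutive ν)
    (hα : ∀ s, α (ν s) = (α s)⁻¹) (hβ : ∀ s, β (ν s) = - β s) (hN : 0 < Fintype.card S) :
    ∃ (C : ℝ) (r₁ : ℕ), 0 < C ∧ ∀ r, r₁ ≤ r → (cls α β (Fin r) 0).Nonempty →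
      (Fintype.card S : ℝ) ^ r ≤ C * ((r : ℝ) + 1) ^ (Fintype.card S) *
        (allS α (Fin r)).card := by
  classical
  have hN1 : (1 : ℝ) ≤ Fintype.card S := by exact_mod_cast hN
  have even : ∀ s : ℕ, (Fintype.card S : ℝ) ^ (2 * s) ≤
      ((2 * s : ℕ) + 1 : ℝ) ^ (Fintype.card S) * (cls α β (Fin s ⊕ Fin s) 0).card := by
    intro s
    have h1 := low_even α β ν hν hα hβ s
    have h2 : (((Fintype.card S) ^ s : ℕ) : ℝ) ^ 2 ≤ ((s : ℝ) + 1) ^ (Fintype.card S) *
      (cls α β (Fin s ⊕ Fin s) 0).card := by exact_mod_cast h1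
    push_cast at h2
    rw [← pow_mul, mul_comm s 2] at h2
    refine h2.trans ?_
    gcongr
    push_cast
    have : (0:ℝ) ≤ s := Nat.cast_nonneg s
    linarith
  by_cases hodd : ∃ r₁ : ℕ, r₁ % 2 = 1 ∧ (cls α β (Fin r₁) 0).Nonempty
  · obtain ⟨r₁, h1, t₁, ht₁⟩ := hodd
    refine ⟨(Fintype.card S : ℝ) ^ r₁, r₁, by positivity, ?_⟩
    intro r hr hne
    rcases Nat.even_or_odd' r with ⟨s, hs | hs⟩
    · have h2 := even s
      have h3 : (cls α β (Fin s ⊕ Fin s) 0).card ≤ (allS α (Fin r)).card := by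
        refine (Finset.card_le_card cls_subset).trans (le_of_eq ?_)
        exact card_allS_congr α (Fintype.equivOfCardEq (by simp; omega))
      subst hs
      have h4 : ((cls α β (Fin s ⊕ Fin s) 0).card : ℝ) ≤ (allS α (Fin (2 * s))).card := by
        exact_mod_cast h3
      calc (Fintype.card S : ℝ) ^ (2 * s) ≤ ((2 * s : ℕ) + 1 : ℝ) ^ (Fintype.card S) *
            (cls α β (Fin s ⊕ Fin s) 0).card := h2
        _ ≤ ((2 * s : ℕ) + 1 : ℝ) ^ (Fintype.card S) * (allS α (Fin (2 * s))).card := by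
            gcongr
        _ = 1 * (((2 * s : ℕ) + 1 : ℝ) ^ (Fintype.card S) * (allS α (Fin (2 * s))).card) := by
            ring
        _ ≤ (Fintype.card S : ℝ) ^ r₁ * (((2 * s : ℕ) + 1 : ℝ) ^ (Fintype.card S) *
              (allS α (Fin (2 * s))).card) := by
            apply mul_le_mul_of_nonneg_right _ (by positivity)
            exact one_le_pow₀ hN1
        _ = _ := by ring
    · obtain ⟨k, hk⟩ : ∃ k, r = 2 * k + r₁ := ⟨(r - r₁) / 2, by omega⟩
      have h2 := even k
      have h3 : (cls α β (Fin k ⊕ Fin k) 0).card ≤ (allS α (Fin r)).card := by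
        rw [← card_allS_congr α (I := (Fin k ⊕ Fin k) ⊕ Fin r₁) (J := Fin r)
          (Fintype.equivOfCardEq (by simp; omega))]
        apply Finset.card_le_card_of_injOn (fun t => Sum.elim t t₁)
        · intro t ht
          rw [Finset.mem_coe, mem_cls] at ht
          rw [Finset.mem_coe, mem_allS, Fintype.prod_sum_type]
          simp only [Sum.elim_inl, Sum.elim_inr]
          rw [ht.1, (mem_cls.1 ht₁).1, one_mul]
        · intro t _ t' _ h
          funext i
          have := congrFun h (Sum.inl i)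
          simpa using this
      have h4 : ((cls α β (Fin k ⊕ Fin k) 0).card : ℝ) ≤ (allS α (Fin r)).card := by
        exact_mod_cast h3
      calc (Fintype.card S : ℝ) ^ r = (Fintype.card S : ℝ) ^ r₁ *
            (Fintype.card S : ℝ) ^ (2 * k) := by rw [← pow_add]; congr 1; omega
        _ ≤ (Fintype.card S : ℝ) ^ r₁ * (((2 * k : ℕ) + 1 : ℝ) ^ (Fintype.card S) *
            (cls α β (Fin k ⊕ Fin k) 0).card) := by gcongr
        _ ≤ (Fintype.card S : ℝ) ^ r₁ * (((r : ℝ) + 1) ^ (Fintype.card S) *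
            (allS α (Fin r)).card) := by
            gcongr
            omega
        _ = _ := by ring
  · push Not at hodd
    refine ⟨1, 0, one_pos, ?_⟩
    intro r _ hne
    rcases Nat.even_or_odd' r with ⟨s, hs | hs⟩
    · have h2 := even s
      have h3 : (cls α β (Fin s ⊕ Fin s) 0).card ≤ (allS α (Fin r)).card := by
        refine (Finset.card_le_card cls_subset).trans (le_of_eq ?_)
        exact card_allS_congr α (Fintype.equivOfCardEq (by simp; omega))
      subst hs
      have h4 : ((cls α β (Fin s ⊕ Fin s) 0).card : ℝ) ≤ (allS α (Fin (2 * s))).card := by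
        exact_mod_cast h3
      calc (Fintype.card S : ℝ) ^ (2 * s) ≤ ((2 * s : ℕ) + 1 : ℝ) ^ (Fintype.card S) *
            (cls α β (Fin s ⊕ Fin s) 0).card := h2
        _ ≤ ((2 * s : ℕ) + 1 : ℝ) ^ (Fintype.card S) * (allS α (Fin (2 * s))).card := by
            gcongr
        _ = _ := by ring
    · exfalso
      have := hodd r (by omega)
      rw [this] at hne
      exact Finset.not_nonempty_empty hne

/-! ### One step of the comparison -/

section step

variable {J : Type*} [Fintype J] [DecidableEq J] {m L : ℕ}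

open Classical in
/-- number of non-typical words -/
noncomputable def bad (S : Type*) [Fintype S] [DecidableEq S] (J : Type*) [Fintype J]
    [DecidableEq J] (m L : ℕ) (δ : ℝ) : ℕ :=
  (univ.filter (fun t : (Fin m × Fin L) ⊕ J → S => ¬ Typ δ t)).card

lemma one_step (α : S → A) (β : S → E) (v w : Fin m → S)
    (hv : ∏ j, α (v j) = 1) (hw : ∏ j, α (w j) = 1) (x : E) (δ : ℝ) (hδ : 0 < δ) (hδ1 : δ < 1)
    (hN : 0 < Fintype.card S) (hL : 0 < L) :
    ((1 - δ) / (1 + δ)) ^ m * ((cls α β ((Fin m × Fin L) ⊕ J) x).card : ℝ) -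
      2 * (Fintype.card S : ℝ) ^ m * bad S J m L δ ≤
      (cls α β ((Fin m × Fin L) ⊕ J) (x + (∑ j, β (w j) - ∑ j, β (v j)))).card := by
  classical
  set N : ℝ := (Fintype.card S : ℝ) with hNdef
  have hN1 : 1 ≤ N := by rw [hNdef]; exact_mod_cast hN
  have hN0 : 0 < N := by linarith
  have hLr : (0 : ℝ) < L := by exact_mod_cast hL
  set y := x + (∑ j, β (w j) - ∑ j, β (v j)) with hy
  set F := cls α β ((Fin m × Fin L) ⊕ J) x with hF
  set G := cls α β ((Fin m × Fin L) ⊕ J) y with hG
  have h0 : ((∑ t ∈ F, ∏ i, cnt t i (v i) : ℕ) : ℝ) ≤ ((∑ t ∈ G, ∏ i, cnt t i (w i) : ℕ) : ℝ) := by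
    exact_mod_cast card_step (J := J) (L := L) α β v w hv hw x
  push_cast at h0
  -- lower bound
  have h1 : ((1 - δ) * L / N) ^ m * ((F.card : ℝ) - bad S J m L δ) ≤
      ∑ t ∈ F, ∏ i, (cnt t i (v i) : ℝ) := by
    have h2 : (F.card : ℝ) - bad S J m L δ ≤ ((F.filter (fun t => Typ δ t)).card : ℝ) := by
      have h3 : (F.filter (fun t => ¬ Typ δ t)).card ≤ bad S J m L δ := by
        unfold bad
        apply Finset.card_le_card
        intro t ht
        rw [Finset.mem_filter] at ht ⊢
        exact ⟨mem_univ _, ht.2⟩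
      have h4 := Finset.card_filter_add_card_filter_not (s := F) (fun t => Typ δ t)
      have h5 : (F.card : ℝ) = ((F.filter (fun t => Typ δ t)).card : ℝ) +
          ((F.filter (fun t => ¬ Typ δ t)).card : ℝ) := by exact_mod_cast h4.symm
      have h6 : ((F.filter (fun t => ¬ Typ δ t)).card : ℝ) ≤ bad S J m L δ := by
        exact_mod_cast h3
      linarith
    have h7 : 0 ≤ (1 - δ) * L / N := by
      have : 0 < 1 - δ := by linarith
      positivity
    calc ((1 - δ) * L / N) ^ m * ((F.card : ℝ) - bad S J m L δ)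
        ≤ ((1 - δ) * L / N) ^ m * ((F.filter (fun t => Typ δ t)).card : ℝ) := by
          gcongr
      _ = ∑ t ∈ F.filter (fun t => Typ δ t), ((1 - δ) * L / N) ^ m := by
          rw [Finset.sum_const, nsmul_eq_mul, mul_comm]
      _ ≤ ∑ t ∈ F.filter (fun t => Typ δ t), ∏ i, (cnt t i (v i) : ℝ) := by
          apply Finset.sum_le_sum
          intro t ht
          rw [Finset.mem_filter] at ht
          calc ((1 - δ) * L / N) ^ m = ∏ i : Fin m, ((1 - δ) * L / N) := by
                rw [Finset.prod_const, Finset.card_univ, Fintype.card_fin]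
            _ ≤ _ := Finset.prod_le_prod (fun _ _ => h7) (fun i _ => (ht.2 i (v i)).1)
      _ ≤ ∑ t ∈ F, ∏ i, (cnt t i (v i) : ℝ) := by
          apply Finset.sum_le_sum_of_subset_of_nonneg (Finset.filter_subset _ _)
          intro t _ _
          positivity
  have h2 : ∑ t ∈ G, ∏ i, (cnt t i (w i) : ℝ) ≤
      ((1 + δ) * L / N) ^ m * (G.card : ℝ) + (L : ℝ) ^ m * bad S J m L δ := by
    rw [← Finset.sum_filter_add_sum_filter_not G (fun t => Typ δ t)]
    apply add_le_add
    · calc ∑ t ∈ G.filter (fun t => Typ δ t), ∏ i, (cnt t i (w i) : ℝ)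
          ≤ ∑ t ∈ G.filter (fun t => Typ δ t), ((1 + δ) * L / N) ^ m := by
            apply Finset.sum_le_sum
            intro t ht
            rw [Finset.mem_filter] at ht
            calc ∏ i, (cnt t i (w i) : ℝ) ≤ ∏ i : Fin m, ((1 + δ) * L / N) :=
                  Finset.prod_le_prod (fun _ _ => by positivity) (fun i _ => (ht.2 i (w i)).2)
              _ = _ := by rw [Finset.prod_const, Finset.card_univ, Fintype.card_fin]
        _ = ((1 + δ) * L / N) ^ m * ((G.filter (fun t => Typ δ t)).card : ℝ) := by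
            rw [Finset.sum_const, nsmul_eq_mul, mul_comm]
        _ ≤ _ := by
            gcongr
            exact Finset.filter_subset _ _
    · calc ∑ t ∈ G.filter (fun t => ¬ Typ δ t), ∏ i, (cnt t i (w i) : ℝ)
          ≤ ∑ t ∈ G.filter (fun t => ¬ Typ δ t), (L : ℝ) ^ m := by
            apply Finset.sum_le_sum
            intro t ht
            calc ∏ i, (cnt t i (w i) : ℝ) ≤ ∏ i : Fin m, (L : ℝ) :=
                  Finset.prod_le_prod (fun _ _ => by positivity)
                    (fun i _ => by exact_mod_cast cnt_le t i (w i))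
              _ = _ := by rw [Finset.prod_const, Finset.card_univ, Fintype.card_fin]
        _ = (L : ℝ) ^ m * ((G.filter (fun t => ¬ Typ δ t)).card : ℝ) := by
            rw [Finset.sum_const, nsmul_eq_mul, mul_comm]
        _ ≤ _ := by
            have h3 : (G.filter (fun t => ¬ Typ δ t)).card ≤ bad S J m L δ := by
              unfold bad
              apply Finset.card_le_card
              intro t ht
              rw [Finset.mem_filter] at ht ⊢
              exact ⟨mem_univ _, ht.2⟩
            have h4 : ((G.filter (fun t => ¬ Typ δ t)).card : ℝ) ≤ bad S J m L δ := by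
              exact_mod_cast h3
            gcongr
  have h3 := h1.trans (h0.trans h2)
  -- divide by ((1 + δ) L / N) ^ m
  have e1 : ((1 - δ) * L / N) ^ m = ((1 - δ) / (1 + δ)) ^ m * ((1 + δ) * L / N) ^ m := by
    rw [← mul_pow]
    congr 1
    have : 1 + δ ≠ 0 := by linarith
    field_simp
  have e2 : (L : ℝ) ^ m ≤ N ^ m * ((1 + δ) * L / N) ^ m := by
    rw [← mul_pow]
    apply pow_le_pow_left₀ hLr.le
    have : N * ((1 + δ) * L / N) = (1 + δ) * L := by field_simp
    rw [this]
    nlinarith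
  have hρ0 : 0 ≤ ((1 - δ) / (1 + δ)) ^ m := by
    apply pow_nonneg
    apply div_nonneg <;> linarith
  have hρ1 : ((1 - δ) / (1 + δ)) ^ m ≤ 1 := by
    apply pow_le_one₀
    · apply div_nonneg <;> linarith
    · rw [div_le_one (by linarith)]
      linarith
  have hQ : 0 < ((1 + δ) * L / N) ^ m := by positivity
  have hNm : 1 ≤ N ^ m := one_le_pow₀ hN1
  have hb : (0 : ℝ) ≤ bad S J m L δ := Nat.cast_nonneg _
  rw [e1] at h3
  have h4 : ((1 + δ) * L / N) ^ m * (((1 - δ) / (1 + δ)) ^ m * (F.card : ℝ) -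
      2 * N ^ m * bad S J m L δ) ≤ ((1 + δ) * L / N) ^ m * (G.card : ℝ) := by
    set Q := ((1 + δ) * L / N) ^ m with hQdef
    set ρ := ((1 - δ) / (1 + δ)) ^ m with hρdef
    have h5 : (L : ℝ) ^ m * bad S J m L δ ≤ N ^ m * Q * bad S J m L δ :=
      mul_le_mul_of_nonneg_right e2 hb
    have h6 : ρ * Q * bad S J m L δ ≤ N ^ m * Q * bad S J m L δ := by
      apply mul_le_mul_of_nonneg_right _ hb
      apply mul_le_mul_of_nonneg_right _ hQ.le
      linarith
    nlinarith
  exact le_of_mul_le_mul_left h4 hQ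

lemma iterate (α : S → A) (β : S → E) (v w : Fin m → S)
    (hv : ∏ j, α (v j) = 1) (hw : ∏ j, α (w j) = 1) (δ : ℝ) (hδ : 0 < δ) (hδ1 : δ < 1)
    (hN : 0 < Fintype.card S) (hL : 0 < L) (k : ℕ) :
    (((1 - δ) / (1 + δ)) ^ m) ^ k * ((cls α β ((Fin m × Fin L) ⊕ J) 0).card : ℝ) -
      k * (2 * (Fintype.card S : ℝ) ^ m * bad S J m L δ) ≤
      (cls α β ((Fin m × Fin L) ⊕ J) (k • (∑ j, β (w j) - ∑ j, β (v j)))).card := by
  have hρ0 : 0 ≤ ((1 - δ) / (1 + δ)) ^ m := by
    apply pow_nonneg
    apply div_nonneg <;> linarith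
  have hρ1 : ((1 - δ) / (1 + δ)) ^ m ≤ 1 := by
    apply pow_le_one₀
    · apply div_nonneg <;> linarith
    · rw [div_le_one (by linarith)]
      linarith
  induction k with
  | zero => simp
  | succ k ih =>
    have h1 := one_step (J := J) (L := L) α β v w hv hw
      (k • (∑ j, β (w j) - ∑ j, β (v j))) δ hδ hδ1 hN hL
    rw [← succ_nsmul] at h1
    refine le_trans ?_ h1
    set ρ := ((1 - δ) / (1 + δ)) ^ m with hρdef
    set T := 2 * (Fintype.card S : ℝ) ^ m * bad S J m L δ with hT
    have hT0 : 0 ≤ T := by rw [hT]; positivity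
    have h2 := mul_le_mul_of_nonneg_left ih hρ0
    have h3 : ρ * (k * T) ≤ 1 * (k * T) := mul_le_mul_of_nonneg_right hρ1 (by positivity)
    have h4 : ρ * (ρ ^ k * ((cls α β ((Fin m × Fin L) ⊕ J) 0).card : ℝ) - k * T) =
      ρ ^ (k + 1) * ((cls α β ((Fin m × Fin L) ⊕ J) 0).card : ℝ) - ρ * (k * T) := by ring
    push_cast
    nlinarith

end step

/-! ### The law -/

theorem zero_one (α : S → A) (β : S → E) (ν : S → S) (hν : Function.Involutive ν)
    (hα : ∀ s, α (ν s) = (α s)⁻¹) (hβ : ∀ s, β (ν s) = - β s)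
    (hE : ∀ (n : ℕ) (x : E), n • x = 0 → n = 0 ∨ x = 0)
    {m : ℕ} (v : Fin m → S) (hv : ∏ i, α (v i) = 1) (hv2 : ∑ i, β (v i) ≠ 0)
    (ε : ℝ) (hε : 0 < ε) :
    ∃ R : ℕ, ∀ r, R ≤ r →
      ((cls α β (Fin r) 0).card : ℝ) ≤ ε * (allS α (Fin r)).card := by
  classical
  have hm : 0 < m := by
    rcases Nat.eq_zero_or_pos m with h | h
    · exfalso
      subst h
      apply hv2
      simp
    · exact h
  have hN : 0 < Fintype.card S := Fintype.card_pos_iff.2 ⟨v ⟨0, hm⟩⟩
  have hN1 : (1 : ℝ) ≤ Fintype.card S := by exact_mod_cast hN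
  have hmr : (1 : ℝ) ≤ m := by exact_mod_cast hm
  obtain ⟨C, r₁, hC, hlow⟩ := low α β ν hν hα hβ hN
  set N : ℝ := (Fintype.card S : ℝ) with hNdef
  -- the shift
  set w : Fin m → S := fun i => ν (v i) with hwdef
  have hw : ∏ i, α (w i) = 1 := by
    simp only [hwdef, hα, Finset.prod_inv_distrib, hv, inv_one]
  set y : E := ∑ j, β (w j) - ∑ j, β (v j) with hydef
  have hy : y ≠ 0 := by
    intro h
    have h1 : y = -(2 • ∑ j, β (v j)) := by
      rw [hydef]
      simp only [hwdef, hβ, Finset.sum_neg_distrib]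
      rw [two_nsmul]
      abel
    rw [h1, neg_eq_zero] at h
    rcases hE 2 _ h with h2 | h2
    · omega
    · exact hv2 h2
  have hinj : ∀ i j : ℕ, i • y = j • y → i = j := by
    have key : ∀ i j : ℕ, i ≤ j → i • y = j • y → i = j := by
      intro i j hij h
      have h1 : (j - i) • y = 0 := by
        rw [← sub_eq_zero, ← neg_sub] at h
        rw [neg_eq_zero] at h
        rw [← h]
        obtain ⟨k, rfl⟩ := Nat.exists_eq_add_of_le hij
        rw [Nat.add_sub_cancel_left, add_nsmul]
        abel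
      rcases hE _ _ h1 with h2 | h2
      · omega
      · exact absurd h2 hy
    intro i j h
    rcases le_total i j with h1 | h1
    · exact key i j h1 h
    · exact (key j i h1 h.symm).symm
  -- parameters
  obtain ⟨K, hK⟩ := exists_nat_gt (4 / ε)
  have hK0 : 0 < K := by
    have : (0 : ℝ) < K := lt_trans (by positivity) hK
    exact_mod_cast this
  have hKr : (1 : ℝ) ≤ K := by exact_mod_cast hK0
  set δ : ℝ := 1 / (4 * m * K) with hδdef
  have hδ : 0 < δ := by positivity
  have hδ1 : δ < 1 := by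
    rw [hδdef, div_lt_one (by positivity)]
    nlinarith
  have hρK : 1 / 2 ≤ (((1 - δ) / (1 + δ)) ^ m) ^ K := by
    have h1 : 1 - 2 * δ ≤ (1 - δ) / (1 + δ) := by
      rw [le_div_iff₀ (by linarith)]
      nlinarith
    have h2 : (-2 : ℝ) ≤ -(2 * δ) := by linarith
    have h3 := one_add_mul_le_pow h2 (m * K)
    rw [← pow_mul]
    have h4 : 0 ≤ 1 - 2 * δ := by
      have : δ ≤ 1 / 4 := by
        rw [hδdef]
        apply one_div_le_one_div_of_le (by norm_num)
        nlinarith
      linarith
    have h5 : (1 - 2 * δ) ^ (m * K) ≤ ((1 - δ) / (1 + δ)) ^ (m * K) :=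
      pow_le_pow_left₀ h4 h1 _
    refine le_trans ?_ h5
    refine le_trans ?_ h3
    have h6 : ((m * K : ℕ) : ℝ) * -(2 * δ) = -(1 / 2) := by
      push_cast
      rw [hδdef]
      field_simp
      norm_num
    rw [h6]
    norm_num
  set θ : ℝ := max (rate N (1 - δ)) (rate N (1 + δ)) with hθdef
  have hθ0 : 0 < θ := lt_max_of_lt_left (rate_pos hN1 (by linarith))
  have hθ1 : θ < 1 := max_lt (rate_lt_one hN1 (by linarith) (by linarith))
    (rate_lt_one hN1 (by linarith) (by linarith))
  set D : ℝ := 2 * K * (2 * N ^ m) * (m * N * 2) * (C * (m : ℝ) ^ (Fintype.card S)) with hD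
  have hD0 : 0 < D := by positivity
  have hlim : Tendsto (fun L : ℕ => ((L : ℝ) + 1) ^ (Fintype.card S) * θ ^ L) atTop (nhds 0) := by
    have h1 := tendsto_pow_const_mul_const_pow_of_abs_lt_one (Fintype.card S)
      (r := θ) (by rw [abs_of_pos hθ0]; exact hθ1)
    have h2 := (tendsto_add_atTop_iff_nat 1).2 h1
    have h3 := h2.mul_const (θ⁻¹)
    rw [zero_mul] at h3
    refine h3.congr ?_
    intro L
    push_cast
    rw [pow_succ]
    field_simp
  have hev : ∀ᶠ L : ℕ in atTop, ((L : ℝ) + 1) ^ (Fintype.card S) * θ ^ L < ε / 2 / D :=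
    hlim.eventually_lt_const (by positivity)
  obtain ⟨L₀, hL₀⟩ := eventually_atTop.1 hev
  refine ⟨m * (L₀ + 1) + r₁, ?_⟩
  intro r hr
  rcases (cls α β (Fin r) 0).eq_empty_or_nonempty with hemp | hne
  · rw [hemp]
    simp only [Finset.card_empty, Nat.cast_zero]
    positivity
  have hl := hlow r (by omega) hne
  set L := r / m with hLdef
  have hLge : L₀ + 1 ≤ L := by
    rw [hLdef, Nat.le_div_iff_mul_le hm]
    nlinarith
  have hL : 0 < L := by omega
  have hrL : r + 1 ≤ m * (L + 1) := by
    have := Nat.lt_mul_div_succ r hm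
    rw [← hLdef] at this
    omega
  -- index type
  let J := Fin (r % m)
  have hcard : Fintype.card ((Fin m × Fin L) ⊕ J) = Fintype.card (Fin r) := by
    simp only [Fintype.card_sum, Fintype.card_prod, Fintype.card_fin, J]
    exact Nat.div_add_mod r m
  have hcard' : Fintype.card ((Fin m × Fin L) ⊕ J) = r := by
    rw [hcard, Fintype.card_fin]
  let e : (Fin m × Fin L) ⊕ J ≃ Fin r := Fintype.equivOfCardEq hcard
  rw [← card_cls_congr α β e 0, ← card_allS_congr α e]
  rw [← card_allS_congr α e] at hl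
  set c₀ : ℝ := ((cls α β ((Fin m × Fin L) ⊕ J) 0).card : ℝ) with hc₀
  set a : ℝ := ((allS α ((Fin m × Fin L) ⊕ J)).card : ℝ) with ha
  have hit := iterate (J := J) (L := L) α β v w hv hw δ hδ hδ1 hN hL
  set T : ℝ := 2 * (Fintype.card S : ℝ) ^ m * bad S J m L δ with hT
  have hT0 : 0 ≤ T := by rw [hT]; positivity
  have hρ0 : 0 ≤ ((1 - δ) / (1 + δ)) ^ m := by
    apply pow_nonneg
    apply div_nonneg <;> linarith
  have hρ1 : ((1 - δ) / (1 + δ)) ^ m ≤ 1 := by
    apply pow_le_one₀
    · apply div_nonneg <;> linarith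
    · rw [div_le_one (by linarith)]
      linarith
  have hc0 : 0 ≤ c₀ := by rw [hc₀]; positivity
  -- sum over k
  have hsum : (K : ℝ) * (1 / 2 * c₀ - K * T) ≤ a := by
    have h1 : ∑ k ∈ Finset.range K, (1 / 2 * c₀ - K * T) ≤ a := by
      have h2 : ∀ k ∈ Finset.range K, (1 / 2 * c₀ - K * T) ≤
          ((cls α β ((Fin m × Fin L) ⊕ J) (k • y)).card : ℝ) := by
        intro k hk
        rw [Finset.mem_range] at hk
        refine le_trans ?_ (hit k)
        have h3 : (((1 - δ) / (1 + δ)) ^ m) ^ K ≤ (((1 - δ) / (1 + δ)) ^ m) ^ k :=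
          pow_le_pow_of_le_one hρ0 hρ1 hk.le
        have h4 : 1 / 2 * c₀ ≤ (((1 - δ) / (1 + δ)) ^ m) ^ k * c₀ :=
          mul_le_mul_of_nonneg_right (hρK.trans h3) hc0
        have h5 : (k : ℝ) * T ≤ K * T := by
          apply mul_le_mul_of_nonneg_right _ hT0
          exact_mod_cast hk.le
        linarith
      refine (Finset.sum_le_sum h2).trans ?_
      have h6 : ∑ k ∈ Finset.range K, (cls α β ((Fin m × Fin L) ⊕ J) (k • y)).card =
          ((Finset.range K).biUnion (fun k => cls α β ((Fin m × Fin L) ⊕ J) (k • y))).card := by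
        rw [Finset.card_biUnion]
        intro i _ j _ hij
        rw [Function.onFun, Finset.disjoint_left]
        intro t ht ht'
        rw [mem_cls] at ht ht'
        exact hij (hinj i j (ht.2.symm.trans ht'.2))
      have h7 : ((Finset.range K).biUnion
          (fun k => cls α β ((Fin m × Fin L) ⊕ J) (k • y))).card ≤
          (allS α ((Fin m × Fin L) ⊕ J)).card := by
        apply Finset.card_le_card
        intro t ht
        rw [Finset.mem_biUnion] at ht
        obtain ⟨k, _, hk⟩ := ht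
        exact cls_subset hk
      rw [ha]
      rw [← h6] at h7
      exact_mod_cast h7
    rw [Finset.sum_const, Finset.card_range, nsmul_eq_mul] at h1
    exact h1
  -- bound for T
  have hTle : 2 * K * T ≤ ε / 2 * a := by
    have h1 := card_not_typ (S := S) (J := J) (m := m) (L := L) δ hδ hδ1 hN
    have h2 : (bad S J m L δ : ℝ) ≤ m * N * 2 * (N ^ r * θ ^ L) := by
      unfold bad
      refine h1.trans ?_
      rw [hcard']
      have h3 : (rate N (1 - δ)) ^ L ≤ θ ^ L :=
        pow_le_pow_left₀ (rate_pos hN1 (by linarith)).le (le_max_left _ _) _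
      have h4 : (rate N (1 + δ)) ^ L ≤ θ ^ L :=
        pow_le_pow_left₀ (rate_pos hN1 (by linarith)).le (le_max_right _ _) _
      have h5 : N ^ r * (rate N (1 - δ)) ^ L ≤ N ^ r * θ ^ L :=
        mul_le_mul_of_nonneg_left h3 (by positivity)
      have h6 : N ^ r * (rate N (1 + δ)) ^ L ≤ N ^ r * θ ^ L :=
        mul_le_mul_of_nonneg_left h4 (by positivity)
      calc (m : ℝ) * N * (N ^ r * rate N (1 - δ) ^ L + N ^ r * rate N (1 + δ) ^ L)
          ≤ m * N * (N ^ r * θ ^ L + N ^ r * θ ^ L) := by gcongr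
        _ = _ := by ring
    have h3 : N ^ r ≤ C * ((m : ℝ) ^ (Fintype.card S) * ((L : ℝ) + 1) ^ (Fintype.card S)) * a := by
      refine hl.trans ?_
      have h4 : ((r : ℝ) + 1) ^ (Fintype.card S) ≤
          (m : ℝ) ^ (Fintype.card S) * ((L : ℝ) + 1) ^ (Fintype.card S) := by
        rw [← mul_pow]
        apply pow_le_pow_left₀ (by positivity)
        exact_mod_cast hrL
      have ha0 : 0 ≤ a := by rw [ha]; positivity
      gcongr
    have h5 := hL₀ L (by omega)
    have ha0 : 0 ≤ a := by rw [ha]; positivity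
    have hθL : 0 ≤ θ ^ L := by positivity
    calc 2 * K * T = 2 * K * (2 * N ^ m) * bad S J m L δ := by rw [hT]; ring
      _ ≤ 2 * K * (2 * N ^ m) * (m * N * 2 * (N ^ r * θ ^ L)) := by gcongr
      _ ≤ 2 * K * (2 * N ^ m) * (m * N * 2 *
          ((C * ((m : ℝ) ^ (Fintype.card S) * ((L : ℝ) + 1) ^ (Fintype.card S)) * a) * θ ^ L)) := by
          gcongr
      _ = D * (((L : ℝ) + 1) ^ (Fintype.card S) * θ ^ L) * a := by rw [hD]; ring
      _ ≤ D * (ε / 2 / D) * a := by
          gcongr
      _ = ε / 2 * a := by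
          field_simp
  -- conclusion
  have hKpos : (0 : ℝ) < K := by linarith
  have h1 : c₀ ≤ 2 / K * a + 2 * K * T := by
    have h2 : 1 / 2 * c₀ - K * T ≤ a / K := by
      rw [le_div_iff₀ hKpos]
      linarith
    have h3 : 2 / K * a = 2 * (a / K) := by ring
    rw [h3]
    linarith
  have h2 : 2 / (K : ℝ) ≤ ε / 2 := by
    rw [div_le_iff₀ hKpos]
    rw [div_lt_iff₀ hε] at hK
    linarith
  have ha0 : 0 ≤ a := by rw [ha]; positivity
  have h3 : 2 / (K : ℝ) * a ≤ ε / 2 * a := mul_le_mul_of_nonneg_right h2 ha0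
  linarith

end Pool.Agent.Helper32.ZeroOne
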