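import Pool.Agent.Helper32.ZeroOne.Extra
import Pool.Agent.Helper32.ZeroOne.Defs

/-!
The zero-one law for gamma products.
-/

namespace Pool.Agent.Helper32.ZeroOne

open Finset Filter

set_option maxHeartbeats 2000000

/-- algebraic units -/
def algU : Subgroup ℝˣ where
  carrier := {u | IsAlgebraic ℚ (u : ℝ)}
  mul_mem' := by
    intro a b ha hb
    simp only [Set.mem_ofPred_eq, Units.val_mul] at *
    exact ha.mul hb
  one_mem' := by
    simp only [Set.mem_ofPred_eq, Units.val_one]
    exact isAlgebraic_one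
  inv_mem' := by
    intro a ha
    simp only [Set.mem_ofPred_eq, Units.val_inv_eq_inv_val] at *
    exact ha.inv

/-- classes of nonzero reals modulo algebraic numbers -/
abbrev Cls := ℝˣ ⧸ algU

lemma mem_algU {u : ℝˣ} : u ∈ algU ↔ IsAlgebraic ℚ (u : ℝ) := Iff.rfl

/-- the letters `j / D`, `0 < j < D` -/
abbrev Let (D : ℕ) := {j : ℕ // j ∈ Finset.Ioo 0 D}

/-- numerator of a letter; `none` is the point `1` -/
def val (D : ℕ) : Option (Let D) → ℕ
  | none => D
  | some j => j.1

lemma val_mem {D : ℕ} (hD : 2 ≤ D) (s : Option (Let D)) : val D s ∈ Finset.Icc 1 D := by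
  cases s with
  | none =>
    simp only [val, Finset.mem_Icc]
    omega
  | some j =>
    have := j.2
    rw [Finset.mem_Ioo] at this
    simp only [val, Finset.mem_Icc]
    omega

lemma val_inj {D : ℕ} : Function.Injective (val D) := by
  intro s t h
  cases s with
  | none =>
    cases t with
    | none => rfl
    | some j =>
      have := j.2
      rw [Finset.mem_Ioo] at this
      simp only [val] at h
      omega
  | some i =>
    cases t with
    | none =>
      have := i.2
      rw [Finset.mem_Ioo] at this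
      simp only [val] at h
      omega
    | some j =>
      simp only [val] at h
      rw [Subtype.ext h]

lemma val_surj {D : ℕ} {j : ℕ} (hj : j ∈ Finset.Icc 1 D) : ∃ s : Option (Let D), val D s = j := by
  rw [Finset.mem_Icc] at hj
  rcases Nat.lt_or_ge j D with h | h
  · exact ⟨some ⟨j, Finset.mem_Ioo.2 ⟨by omega, h⟩⟩, rfl⟩
  · exact ⟨none, by simp only [val]; omega⟩

lemma gam_pos' {D : ℕ} (hD : 2 ≤ D) (s : Option (Let D)) :
    0 < Real.Gamma ((val D s : ℝ) / D) / Real.sqrt Real.pi := by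
  have h := val_mem hD s
  rw [Finset.mem_Icc] at h
  have h1 : (0 : ℝ) < val D s := by exact_mod_cast h.1
  have h2 : (0 : ℝ) < D := by positivity
  exact div_pos (Real.Gamma_pos_of_pos (div_pos h1 h2)) (Real.sqrt_pos.2 Real.pi_pos)

/-- normalized gamma value as a unit -/
noncomputable def gun {D : ℕ} (hD : 2 ≤ D) (s : Option (Let D)) : ℝˣ :=
  Units.mk0 (Real.Gamma ((val D s : ℝ) / D) / Real.sqrt Real.pi) (gam_pos' hD s).ne'

/-- its class modulo algebraic numbers -/
noncomputable def gcl {D : ℕ} (hD : 2 ≤ D) (s : Option (Let D)) : Cls :=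
  QuotientGroup.mk (gun hD s)

/-- the sawtooth values -/
noncomputable def saw (D : ℕ) (s : Option (Let D)) : ℕ → ℚ := fun m =>
  if 1 ≤ m ∧ m < D ∧ Nat.Coprime m D then Int.fract ((m : ℚ) * ((val D s : ℚ) / D)) - 1 / 2 else 0

/-- reflection -/
def refl (D : ℕ) (j : Let D) : Let D := ⟨D - j.1, by
  have := j.2
  rw [Finset.mem_Ioo] at *
  omega⟩

lemma refl_invol (D : ℕ) : Function.Involutive (refl D) := by
  intro j
  have := j.2
  rw [Finset.mem_Ioo] at this
  apply Subtype.ext
  simp only [refl]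
  omega

lemma gcl_refl {D : ℕ} (hD : 2 ≤ D) (j : Let D) :
    gcl hD (some (refl D j)) = (gcl hD (some j))⁻¹ := by
  rw [eq_inv_iff_mul_eq_one]
  unfold gcl
  rw [← QuotientGroup.mk_mul, QuotientGroup.eq_one_iff, mem_algU, Units.val_mul]
  unfold gun
  rw [Units.val_mk0, Units.val_mk0]
  have hj := j.2
  rw [Finset.mem_Ioo] at hj
  have hD0 : (D : ℝ) ≠ 0 := by positivity
  have h1 : ((val D (some (refl D j)) : ℕ) : ℝ) / D = 1 - ((j.1 : ℕ) : ℝ) / D := by
    simp only [val, refl]
    rw [Nat.cast_sub hj.2.le]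
    field_simp
  have h1' : ((val D (some j) : ℕ) : ℝ) / D = ((j.1 : ℕ) : ℝ) / D := rfl
  rw [h1, h1']
  have h2 : Real.Gamma (1 - (j.1 : ℝ) / D) / Real.sqrt Real.pi *
      (Real.Gamma ((j.1 : ℝ) / D) / Real.sqrt Real.pi) =
      (Real.sin (((j.1 : ℚ) / D : ℚ) * Real.pi))⁻¹ := by
    rw [mul_comm, div_mul_div_comm, Real.Gamma_mul_Gamma_one_sub, Real.mul_self_sqrt Real.pi_pos.le]
    push_cast
    rw [mul_comm Real.pi, div_div, mul_comm, ← div_div, div_self Real.pi_ne_zero, one_div]
  rw [h2]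
  refine IsAlgebraic.inv ?_
  have := Real.isAlgebraic_sin_rat_mul_pi ((j.1 : ℚ) / D)
  exact (IsFractionRing.isAlgebraic_iff ℤ ℚ ℝ).1 this

lemma fract_refl {D : ℕ} (j : Let D) (m : ℕ) (hm : Nat.Coprime m D) :
    Int.fract ((m : ℚ) * ((val D (some (refl D j)) : ℚ) / D)) =
      1 - Int.fract ((m : ℚ) * ((val D (some j) : ℚ) / D)) := by
  have hj := j.2
  rw [Finset.mem_Ioo] at hj
  have hD0 : (D : ℚ) ≠ 0 := by
    have : 0 < D := by omega
    positivity
  have h1 : (m : ℚ) * ((val D (some (refl D j)) : ℚ) / D) =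
      -((m : ℚ) * ((val D (some j) : ℚ) / D)) + ((m : ℤ) : ℚ) := by
    simp only [val, refl]
    rw [Nat.cast_sub hj.2.le]
    push_cast
    field_simp
    ring
  rw [h1, Int.fract_add_intCast, Int.fract_neg]
  intro h
  -- `m j / D` would be an integer
  have h2 : (m : ℚ) * ((val D (some j) : ℚ) / D) =
      (⌊(m : ℚ) * ((val D (some j) : ℚ) / D)⌋ : ℚ) := by
    have := Int.self_sub_fract ((m : ℚ) * ((val D (some j) : ℚ) / D))
    rw [h, sub_zero] at this
    exact this
  set n := ⌊(m : ℚ) * ((val D (some j) : ℚ) / D)⌋ with hn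
  have h3 : ((m * j.1 : ℕ) : ℤ) = n * (D : ℤ) := by
    have h4 : (m : ℚ) * (j.1 : ℚ) = n * D := by
      have h5 : (m : ℚ) * ((j.1 : ℚ) / D) = n := h2
      rw [← h5]
      field_simp
    exact_mod_cast h4
  have h5 : (D : ℤ) ∣ ((m * j.1 : ℕ) : ℤ) := ⟨n, by rw [h3]; ring⟩
  rw [Int.natCast_dvd_natCast] at h5
  have h6 := Nat.Coprime.dvd_of_dvd_mul_left hm.symm h5
  have h7 := Nat.le_of_dvd hj.1 h6
  omega

lemma saw_refl (D : ℕ) (j : Let D) : saw D (some (refl D j)) = - saw D (some j) := by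
  funext m
  simp only [saw, Pi.neg_apply]
  by_cases h : 1 ≤ m ∧ m < D ∧ Nat.Coprime m D
  · rw [if_pos h, if_pos h, fract_refl j m h.2.2]
    ring
  · rw [if_neg h, if_neg h, neg_zero]

/-- doubly closed words do not contain `none` -/
lemma ne_none {D : ℕ} (hD : 2 ≤ D) {r : ℕ} (s : Fin r → Option (Let D))
    (h : ∑ i, saw D (s i) = 0) : ∀ i, s i ≠ none := by
  have h1 := congrFun h 1
  have h2 := congrFun h (D - 1)
  rw [Finset.sum_apply, Pi.zero_apply] at h1 h2
  have hc1 : 1 ≤ 1 ∧ 1 < D ∧ Nat.Coprime 1 D := ⟨le_refl _, by omega, Nat.coprime_one_left D⟩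
  have hc2 : 1 ≤ D - 1 ∧ D - 1 < D ∧ Nat.Coprime (D - 1) D := by
    refine ⟨by omega, by omega, ?_⟩
    have := (Nat.coprime_self_sub_left (n := D) (m := 1) (by omega)).2 (Nat.coprime_one_left D)
    exact this
  have h3 : ∀ t : Option (Let D), saw D t 1 + saw D t (D - 1) = if t = none then -1 else 0 := by
    intro t
    simp only [saw]
    rw [if_pos hc1, if_pos hc2]
    cases t with
    | none =>
      have hD0 : (D : ℚ) ≠ 0 := by positivity
      simp only [val, if_true]
      rw [div_self hD0, mul_one, mul_one, Int.fract_natCast, Int.fract_natCast]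
      norm_num
    | some j =>
      have h4 := fract_refl j 1 hc1.2.2
      have hj := j.2
      rw [Finset.mem_Ioo] at hj
      have hD0 : (D : ℚ) ≠ 0 := by positivity
      have h5 : (((D - 1 : ℕ) : ℕ) : ℚ) * ((val D (some j) : ℚ) / D) =
          ((1 : ℕ) : ℚ) * ((val D (some (refl D j)) : ℚ) / D) + (((j.1 : ℤ) - 1 : ℤ) : ℚ) := by
        simp only [val, refl]
        rw [Nat.cast_sub (by omega), Nat.cast_sub hj.2.le]
        push_cast
        field_simp
        ring
      rw [h5, Int.fract_add_intCast, h4, if_neg (by simp)]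
      ring
  have h4 : ∑ i, (if s i = none then (-1 : ℚ) else 0) = 0 := by
    rw [← Finset.sum_congr rfl (fun i _ => h3 (s i)), Finset.sum_add_distrib, h1, h2, add_zero]
  intro i hi
  have h5 : ∑ i, (if s i = none then (1 : ℚ) else 0) = 0 := by
    have : ∑ i, (if s i = none then (1 : ℚ) else 0) = -∑ i, (if s i = none then (-1 : ℚ) else 0) := by
      rw [← Finset.sum_neg_distrib]
      apply Finset.sum_congr rfl
      intro i _
      split_ifs <;> norm_num
    rw [this, h4, neg_zero]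
  rw [Finset.sum_eq_zero_iff_of_nonneg (fun i _ => by split_ifs <;> norm_num)] at h5
  have := h5 i (mem_univ i)
  rw [if_pos hi] at this
  norm_num at this

lemma sqrt_pow (r : ℕ) : (Real.sqrt Real.pi) ^ r = Real.pi ^ ((r : ℝ) / 2) := by
  rw [Real.sqrt_eq_rpow, ← Real.rpow_natCast, ← Real.rpow_mul Real.pi_pos.le]
  congr 1
  ring

lemma gammaMult_iff' {D : ℕ} (hD : 2 ≤ D) {r : ℕ} (s : Fin r → Option (Let D)) :
    GammaMult (pts D (fun i => val D (s i))) ↔ ∏ i, gcl hD (s i) = 1 := by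
  have hs : (Real.sqrt Real.pi) ^ r ≠ 0 := pow_ne_zero _ (Real.sqrt_pos.2 Real.pi_pos).ne'
  have e1 : ∏ i, gcl hD (s i) = (QuotientGroup.mk (∏ i, gun hD (s i)) : Cls) := by
    unfold gcl
    rw [QuotientGroup.mk_prod]
  have e2 : ((∏ i, gun hD (s i) : ℝˣ) : ℝ) =
      (∏ i, Real.Gamma ((pts D (fun i => val D (s i)) i : ℚ) : ℝ)) / (Real.sqrt Real.pi) ^ r := by
    rw [Units.coe_prod]
    simp only [gun, Units.val_mk0, pts]
    rw [Finset.prod_div_distrib]
    push_cast
    simp
  rw [e1, QuotientGroup.eq_one_iff, mem_algU, e2]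
  unfold GammaMult
  rw [← sqrt_pow]
  constructor
  · rintro ⟨α, hα, h⟩
    rw [h, mul_div_cancel_right₀ _ hs]
    exact hα
  · intro h
    exact ⟨_, h, by field_simp⟩

lemma fracId_iff {D : ℕ} {r : ℕ} (s : Fin r → Option (Let D)) :
    FracId D (pts D (fun i => val D (s i))) ↔ ∑ i, saw D (s i) = 0 := by
  unfold FracId pts
  constructor
  · intro h
    funext m
    rw [Finset.sum_apply, Pi.zero_apply]
    simp only [saw]
    by_cases hm : 1 ≤ m ∧ m < D ∧ Nat.Coprime m D
    · simp only [if_pos hm]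
      rw [Finset.sum_sub_distrib, h m hm.1 hm.2.1 hm.2.2]
      simp
      ring
    · simp only [if_neg hm]
      simp
  · intro h m h1 h2 h3
    have h4 := congrFun h m
    rw [Finset.sum_apply, Pi.zero_apply] at h4
    simp only [saw, if_pos (show 1 ≤ m ∧ m < D ∧ Nat.Coprime m D from ⟨h1, h2, h3⟩)] at h4
    rw [Finset.sum_sub_distrib] at h4
    simp only [Finset.sum_const, Finset.card_univ, Fintype.card_fin, nsmul_eq_mul] at h4
    linarith

lemma gammaCount_eq {D : ℕ} (hD : 2 ≤ D) (r : ℕ) :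
    gammaCount D r = (allS (gcl hD) (Fin r)).card := by
  classical
  unfold gammaCount
  symm
  apply Finset.card_bij (fun s _ i => val D (s i))
  · intro s hs
    rw [mem_allS] at hs
    rw [Finset.mem_filter]
    refine ⟨?_, (gammaMult_iff' hD s).2 hs⟩
    unfold box
    rw [Fintype.mem_piFinset]
    intro i
    exact val_mem hD _
  · intro s _ t _ h
    funext i
    exact val_inj (congrFun h i)
  · intro j hj
    rw [Finset.mem_filter] at hj
    unfold box at hj
    rw [Fintype.mem_piFinset] at hj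
    choose s hs using fun i => val_surj (hj.1 i)
    have e : (fun i => val D (s i)) = j := funext hs
    refine ⟨s, ?_, e⟩
    rw [mem_allS, ← gammaMult_iff' hD, e]
    exact hj.2

lemma bothCount_eq {D : ℕ} (hD : 2 ≤ D) (r : ℕ) :
    bothCount D r = (cls (fun s => gcl hD (some s)) (fun s => saw D (some s)) (Fin r) 0).card := by
  classical
  unfold bothCount
  symm
  apply Finset.card_bij (fun s _ i => val D (some (s i)))
  · intro s hs
    rw [mem_cls] at hs
    rw [Finset.mem_filter]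
    refine ⟨?_, (gammaMult_iff' hD (fun i => some (s i))).2 hs.1,
      (fracId_iff (fun i => some (s i))).2 hs.2⟩
    unfold box
    rw [Fintype.mem_piFinset]
    intro i
    exact val_mem hD _
  · intro s _ t _ h
    funext i
    exact Option.some_injective _ (val_inj (congrFun h i))
  · intro j hj
    rw [Finset.mem_filter] at hj
    unfold box at hj
    rw [Fintype.mem_piFinset] at hj
    choose s hs using fun i => val_surj (hj.1 i)
    have e : (fun i => val D (s i)) = j := funext hs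
    have h1 := (gammaMult_iff' hD s).1 (by rw [e]; exact hj.2.1)
    have h2 := (fracId_iff s).1 (by rw [e]; exact hj.2.2)
    have h3 := ne_none hD s h2
    choose t ht using fun i => Option.ne_none_iff_exists'.1 (h3 i)
    refine ⟨t, ?_, ?_⟩
    · rw [mem_cls]
      simp only [← ht]
      exact ⟨h1, h2⟩
    · funext i
      rw [← ht i]
      exact hs i

/-! ### Shifts by integers -/

lemma gamma_shift (p : ℚ) (hp : ∀ k : ℕ, p ≠ -(k : ℚ)) (n : ℕ) :
    ∃ q : ℚ, q ≠ 0 ∧ Real.Gamma ((p + n : ℚ) : ℝ) = q * Real.Gamma ((p : ℚ) : ℝ) := by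
  induction n with
  | zero => exact ⟨1, one_ne_zero, by simp⟩
  | succ n ih =>
    obtain ⟨q, hq, h⟩ := ih
    have h0 : (p + n : ℚ) ≠ 0 := by
      intro h1
      exact hp n (by linarith)
    refine ⟨(p + n) * q, mul_ne_zero h0 hq, ?_⟩
    have h1 : ((p + (n + 1 : ℕ) : ℚ) : ℝ) = ((p + n : ℚ) : ℝ) + 1 := by
      push_cast
      ring
    rw [h1, Real.Gamma_add_one (by exact_mod_cast h0), h]
    push_cast
    ring

lemma gamma_shift_int (p p' : ℚ) (hp : ∀ k : ℕ, p ≠ -(k : ℚ)) (hp' : ∀ k : ℕ, p' ≠ -(k : ℚ))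
    (n : ℤ) (h : p = p' + n) :
    ∃ q : ℚ, q ≠ 0 ∧ Real.Gamma ((p : ℚ) : ℝ) = q * Real.Gamma ((p' : ℚ) : ℝ) := by
  rcases Int.eq_nat_or_neg n with ⟨k, hk | hk⟩
  · obtain ⟨q, hq, h1⟩ := gamma_shift p' hp' k
    refine ⟨q, hq, ?_⟩
    rw [← h1, h, hk]
    simp
  · obtain ⟨q, hq, h1⟩ := gamma_shift p hp k
    refine ⟨q⁻¹, inv_ne_zero hq, ?_⟩
    have h2 : p + k = p' := by
      rw [h, hk]
      push_cast
      ring
    rw [h2] at h1
    rw [h1]
    have : (q : ℝ) ≠ 0 := by exact_mod_cast hq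
    push_cast
    field_simp

/-- The zero-one law. -/
theorem main (D : ℕ) (hD : 2 ≤ D) :
    (∀ (r : ℕ) (a : Fin r → ℚ), (∀ (i : Fin r) (n : ℕ), a i ≠ -(n : ℚ)) →
      (∀ i : Fin r, ∃ z : ℤ, (D : ℚ) * a i = z) → GammaMult a → FracId D a) ∨
    (∀ ε : ℝ, 0 < ε → ∃ R : ℕ, ∀ r, R ≤ r → (bothCount D r : ℝ) ≤ ε * gammaCount D r) := by
  classical
  by_cases hleft : ∀ (r : ℕ) (a : Fin r → ℚ), (∀ (i : Fin r) (n : ℕ), a i ≠ -(n : ℚ)) →
      (∀ i : Fin r, ∃ z : ℤ, (D : ℚ) * a i = z) → GammaMult a → FracId D a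
  · exact Or.inl hleft
  right
  push Not at hleft
  obtain ⟨n, a, ha1, ha2, ha3, ha4⟩ := hleft
  have hD0 : (D : ℚ) ≠ 0 := by positivity
  have hDz : (0 : ℤ) < D := by positivity
  -- representatives
  have hrep : ∀ i, ∃ (s : Option (Let D)) (k : ℤ), a i = (val D s : ℚ) / D + k := by
    intro i
    obtain ⟨z, hz⟩ := ha2 i
    have h1 : a i = (z : ℚ) / D := by
      rw [← hz]
      field_simp
    have h2 : z = D * (z / D) + z % D := (Int.mul_ediv_add_emod z D).symm
    have h3 := Int.emod_nonneg z hDz.ne'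
    have h4 := Int.emod_lt_of_pos z hDz
    rcases eq_or_lt_of_le h3 with h5 | h5
    · refine ⟨none, z / D - 1, ?_⟩
      have h6 : (z : ℚ) = D * ((z / D : ℤ) : ℚ) := by
        have h7 : z = D * (z / D) := by
          rw [← h5, add_zero] at h2
          exact h2
        have : (z : ℚ) = ((D * (z / D) : ℤ) : ℚ) := by rw [← h7]
        rw [this]
        push_cast
        ring
      rw [h1, h6]
      simp only [val]
      push_cast
      field_simp
      ring
    · obtain ⟨k, hk⟩ := Int.eq_ofNat_of_zero_le h3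
      have hk1 : k ∈ Finset.Ioo 0 D := by
        rw [Finset.mem_Ioo]
        omega
      refine ⟨some ⟨k, hk1⟩, z / D, ?_⟩
      rw [h1]
      simp only [val]
      have h6 : (z : ℚ) = D * ((z / D : ℤ) : ℚ) + (k : ℚ) := by
        have : (z : ℚ) = ((D * (z / D) + z % D : ℤ) : ℚ) := by rw [← h2]
        rw [this, hk]
        push_cast
        ring
      rw [h6]
      field_simp
      ring
  choose s k hs using hrep
  have hval : ∀ i, ∀ l : ℕ, ((val D (s i) : ℚ) / D) ≠ -(l : ℚ) := by
    intro i l h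
    have h1 := val_mem hD (s i)
    rw [Finset.mem_Icc] at h1
    have h2 : (0 : ℚ) < (val D (s i) : ℚ) / D := by
      have : (0 : ℚ) < (val D (s i) : ℚ) := by exact_mod_cast h1.1
      positivity
    rw [h] at h2
    have : (0 : ℚ) ≤ l := Nat.cast_nonneg l
    linarith
  choose q hq hq2 using fun i => gamma_shift_int (a i) ((val D (s i) : ℚ) / D) (ha1 i) (hval i)
    (k i) (hs i)
  have hgm : GammaMult (pts D (fun i => val D (s i))) := by
    obtain ⟨α, hα, h1⟩ := ha3
    refine ⟨((∏ i, q i : ℚ) : ℝ)⁻¹ * α, ?_, ?_⟩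
    · exact (IsAlgebraic.inv (isAlgebraic_algebraMap (∏ i, q i : ℚ))).mul hα
    · have h2 : ∏ i, Real.Gamma ((a i : ℚ) : ℝ) = ((∏ i, q i : ℚ) : ℝ) *
          ∏ i, Real.Gamma ((pts D (fun i => val D (s i)) i : ℚ) : ℝ) := by
        push_cast
        rw [← Finset.prod_mul_distrib]
        apply Finset.prod_congr rfl
        intro i _
        rw [hq2 i]
        rfl
      have h3 : ((∏ i, q i : ℚ) : ℝ) ≠ 0 := by
        have : (∏ i, q i) ≠ 0 := Finset.prod_ne_zero_iff.2 (fun i _ => hq i)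
        exact_mod_cast this
      rw [h2] at h1
      rw [mul_assoc, ← h1]
      field_simp
  have hfr : ¬ FracId D (pts D (fun i => val D (s i))) := by
    intro h
    apply ha4
    intro m h1 h2 h3
    rw [← h m h1 h2 h3]
    apply Finset.sum_congr rfl
    intro i _
    rw [hs i]
    have : (m : ℚ) * ((val D (s i) : ℚ) / D + (k i : ℚ)) =
        (m : ℚ) * (pts D (fun i => val D (s i)) i) + ((m * k i : ℤ) : ℚ) := by
      simp only [pts]
      push_cast
      ring
    rw [this, Int.fract_add_intCast]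
  rw [gammaMult_iff' hD] at hgm
  rw [fracId_iff] at hfr
  intro ε hε
  simp_rw [gammaCount_eq hD, bothCount_eq hD]
  by_cases hnone : ∃ i, s i = none
  · obtain ⟨i₀, hi₀⟩ := hnone
    exact extra_law (gcl hD) (fun j => saw D (some j)) (refl D) (refl_invol D) (gcl_refl hD)
      (saw_refl D) ⟨1, Finset.mem_Ioo.2 ⟨by omega, by omega⟩⟩ s hgm i₀ hi₀ ε hε
  · push Not at hnone
    choose t ht using fun i => Option.ne_none_iff_exists'.1 (hnone i)
    have h1 : ∏ i, gcl hD (some (t i)) = 1 := by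
      simp only [← ht]
      exact hgm
    have h2 : ∑ i, saw D (some (t i)) ≠ 0 := by
      simp only [← ht]
      exact hfr
    obtain ⟨R, hR⟩ := zero_one (fun j => gcl hD (some j)) (fun j => saw D (some j)) (refl D)
      (refl_invol D) (gcl_refl hD) (saw_refl D)
      (fun n x h => smul_eq_zero.1 h) t h1 h2 ε hε
    refine ⟨R, fun r hr => (hR r hr).trans ?_⟩
    apply mul_le_mul_of_nonneg_left _ hε.le
    exact_mod_cast allS_le (gcl hD) (Fin r)

end Pool.Agent.Helper32.ZeroOne
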